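import Mathlib

/-!
# PD-1: one tied pair

Let `P a b` (`a, b < K`) be vectors in a complex vector space `E`, zero outside, not all zero, such
that `∑ P a b * v ^ (D a) * (v ^ D + v) ^ b = 0` for all complex `v`. Then on the top antidiagonal
`a + b = N` at least `D + 1` of the vectors are nonzero.

Proof. (1) *Coefficients.* Let `φ` be a linear form on `E` (`Module.forall_dual_apply_eq_zero_iff`).
The polynomial `∑ a, b, C (φ (P a b)) * X ^ (D * a) * (X ^ D + X) ^ b` vanishes at all `v`, so it is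
`0` (`Polynomial.funext`). Hence for every exponent `k`:
`∑ a, b, (coeff of X ^ k in X ^ (D a) (X ^ D + X) ^ b) • P a b = 0`.
By the binomial theorem `X ^ (D a) (X ^ D + X) ^ b = ∑ j ≤ b, (b choose j) X ^ (D a + D (b - j) + j)`.
(2) Let `N` be the maximum of `a + b` over `P a b ≠ 0`. For `i < D` and `i ≤ N` take the exponent
`k = D * N - (D - 1) * i = D (N - i) + i`. The
exponent `D a + D (b - j) + j = D (a + b) - (D - 1) j` (`j ≤ b`) is equal to it only if
`D (N - a - b) = (D - 1) (i - j)`; since `a + b ≤ N` (otherwise `P a b = 0`) this needs `j ≤ i`, `D`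
divides `i - j < D` (`D` and `D - 1` are coprime), so `j = i` and `a + b = N`. So
(*) `∑ b ≤ N, (b choose i) • P (N - b) b = 0` for all `i < D` (for `i > N` it is trivial since
`b choose i = 0`).
(3) For every polynomial `q : ℂ[X]` of degree `< D`: `∑ b ≤ N, q.eval b • P (N - b) b = 0`. Strong
induction on the degree: subtract `(leading coeff) * descPochhammer ℂ i` (monic of degree `i`,
`(descPochhammer ℂ i).eval (b : ℂ) = b.descFactorial i = i ! * b.choose i`:
`descPochhammer_eval_eq_descFactorial`, `Nat.descFactorial_eq_factorial_mul_choose`).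
(4) Let `S` be the set of `a ≤ N` with `P a (N - a) ≠ 0`; it is nonempty. If it had at most `D`
elements, choose `a₀ ∈ S` and `q = ∏ a ∈ S \ {a₀}, (X - (N - a))`, of degree `< D`; (3) gives
`q.eval (N - a₀) • P a₀ (N - a₀) = 0` with `q.eval (N - a₀) ≠ 0`, contradiction. So `S` has a subset
with exactly `D + 1` elements. (`P a b = 0` for `a ≥ K` or `b ≥ K`, so `S` is finite, inside
`range (N + 1)`.)
-/

namespace Pool.Agent.Helper7.PD

open Finset Polynomial

private theorem op_arith {D N a b m i : ℕ} (hD : 2 ≤ D) (hi : i < D) (hiN : i ≤ N) (hab : a + b ≤ N)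
    (hm : m ≤ b) : D * (N - i) + i = D * a + (m + D * (b - m)) ↔ m = i ∧ a + b = N := by
  obtain ⟨u, rfl⟩ : ∃ u, N = u + i := ⟨N - i, by omega⟩
  obtain ⟨w, rfl⟩ : ∃ w, b = w + m := ⟨b - m, by omega⟩
  rw [Nat.add_sub_cancel, Nat.add_sub_cancel]
  constructor
  · intro h
    have h1 : m % D = i := by
      have h2 : (D * u + i) % D = i := by
        rw [Nat.mul_add_mod, Nat.mod_eq_of_lt hi]
      rw [h, Nat.mul_add_mod, Nat.add_mul_mod_self_left] at h2
      exact h2
    obtain ⟨t, ht⟩ : ∃ t, m = D * t + i := ⟨m / D, by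
      have := Nat.div_add_mod m D
      omega⟩
    subst ht
    have h3 : D * u = D * (a + t + w) := by
      have e : D * (a + t + w) = D * a + D * t + D * w := by ring
      omega
    have h4 : u = a + t + w := Nat.eq_of_mul_eq_mul_left (by omega) h3
    have h5 : D * t ≤ t := by omega
    have h6 : t = 0 := by
      by_contra h7
      have h8 : 2 * t ≤ D * t := Nat.mul_le_mul_right t hD
      omega
    subst h6
    constructor
    · simp
    · simp
      omega
  · rintro ⟨rfl, h2⟩
    have h3 : u = a + w := by omega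
    subst h3
    ring

private theorem op_coeff {D N a b i : ℕ} (hD : 2 ≤ D) (hi : i < D) (hiN : i ≤ N)
    (hab : a + b ≤ N) :
    (X ^ (D * a) * (X ^ D + X) ^ b : ℂ[X]).coeff (D * (N - i) + i) =
      if a + b = N then (b.choose i : ℂ) else 0 := by
  rw [add_comm (X ^ D : ℂ[X]) X, add_pow, Finset.mul_sum, finset_sum_coeff]
  have h1 : ∀ m ∈ range (b + 1),
      (X ^ (D * a) * (X ^ m * (X ^ D) ^ (b - m) * (b.choose m : ℂ[X])) : ℂ[X]).coeff
        (D * (N - i) + i) = if m = i then (if a + b = N then (b.choose i : ℂ) else 0) else 0 := by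
    intro m hm
    have hm' : m ≤ b := by
      rw [mem_range] at hm
      omega
    have e : (X ^ (D * a) * (X ^ m * (X ^ D) ^ (b - m) * (b.choose m : ℂ[X])) : ℂ[X]) =
        C (b.choose m : ℂ) * X ^ (D * a + (m + D * (b - m))) := by
      rw [← pow_mul, pow_add, pow_add]
      simp only [map_natCast]
      ring
    rw [e, coeff_C_mul, coeff_X_pow]
    have h2 := op_arith hD hi hiN hab hm'
    by_cases h3 : m = i
    · subst h3
      by_cases h4 : a + b = N
      · rw [if_pos (h2.2 ⟨rfl, h4⟩), if_pos rfl, if_pos h4, mul_one]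
      · rw [if_neg (fun h => h4 (h2.1 h).2), if_pos rfl, if_neg h4, mul_zero]
    · rw [if_neg (fun h => h3 (h2.1 h).1), if_neg h3, mul_zero]
  rw [Finset.sum_congr rfl h1, Finset.sum_ite_eq']
  split_ifs with h3 h4 h4
  · rfl
  · rfl
  · rw [mem_range] at h3
    rw [Nat.choose_eq_zero_of_lt (by omega), Nat.cast_zero]
  · rfl

private theorem op_ext {E : Type*} [AddCommGroup E] [Module ℂ E] {D K : ℕ} (P : ℕ → ℕ → E)
    (hkill : ∀ v : ℂ, ∑ a ∈ Finset.range K, ∑ b ∈ Finset.range K,
      (v ^ (D * a) * (v ^ D + v) ^ b) • P a b = 0) (k : ℕ) :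
    ∑ a ∈ range K, ∑ b ∈ range K,
      ((X ^ (D * a) * (X ^ D + X) ^ b : ℂ[X]).coeff k) • P a b = 0 := by
  rw [← Module.forall_dual_apply_eq_zero_iff ℂ]
  intro φ
  have h1 : (∑ a ∈ range K, ∑ b ∈ range K,
      C (φ (P a b)) * (X ^ (D * a) * (X ^ D + X) ^ b) : ℂ[X]) = 0 := by
    apply Polynomial.funext
    intro v
    have h2 := congrArg φ (hkill v)
    simp only [map_sum, map_smul, smul_eq_mul, map_zero] at h2
    simp only [eval_finset_sum, eval_mul, eval_C, eval_pow, eval_X, eval_add, eval_zero]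
    rw [← h2]
    refine Finset.sum_congr rfl fun a _ => Finset.sum_congr rfl fun b _ => ?_
    ring
  have h3 := congrArg (fun q : ℂ[X] => q.coeff k) h1
  simp only [finset_sum_coeff, coeff_C_mul, coeff_zero] at h3
  simp only [map_sum, map_smul, smul_eq_mul]
  rw [← h3]
  refine Finset.sum_congr rfl fun a _ => Finset.sum_congr rfl fun b _ => ?_
  ring

private theorem op_anti {E : Type*} [AddCommGroup E] [Module ℂ E] {D : ℕ} (hD : 2 ≤ D) {K : ℕ}
    (P : ℕ → ℕ → E) (hK : ∀ a b, P a b ≠ 0 → a < K ∧ b < K)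
    (hkill : ∀ v : ℂ, ∑ a ∈ Finset.range K, ∑ b ∈ Finset.range K,
      (v ^ (D * a) * (v ^ D + v) ^ b) • P a b = 0) {N : ℕ}
    (hN : ∀ a b, N < a + b → P a b = 0) {i : ℕ} (hi : i < D) :
    ∑ x ∈ antidiagonal N, (x.2.choose i : ℂ) • P x.1 x.2 = 0 := by
  by_cases hiN : i ≤ N
  · have h1 := op_ext P hkill (D * (N - i) + i)
    rw [← Finset.sum_product'] at h1
    have h2 : ∑ x ∈ range K ×ˢ range K,
        ((X ^ (D * x.1) * (X ^ D + X) ^ x.2 : ℂ[X]).coeff (D * (N - i) + i)) • P x.1 x.2 =
        ∑ x ∈ (range K ×ˢ range K).filter (fun x => x.1 + x.2 = N),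
          (x.2.choose i : ℂ) • P x.1 x.2 := by
      rw [Finset.sum_filter]
      refine Finset.sum_congr rfl fun x _ => ?_
      by_cases h3 : x.1 + x.2 ≤ N
      · rw [op_coeff hD hi hiN h3]
        split_ifs
        · rfl
        · rw [zero_smul]
      · rw [hN _ _ (by omega), smul_zero, if_neg (by omega)]
    rw [h2] at h1
    rw [← h1]
    symm
    apply Finset.sum_subset
    · intro x hx
      exact mem_antidiagonal.2 (mem_filter.1 hx).2
    · intro x hx hn
      have h4 : P x.1 x.2 = 0 := by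
        by_contra h5
        obtain ⟨h6, h7⟩ := hK _ _ h5
        exact hn (mem_filter.2 ⟨mem_product.2 ⟨mem_range.2 h6, mem_range.2 h7⟩,
          mem_antidiagonal.1 hx⟩)
      rw [h4, smul_zero]
  · refine Finset.sum_eq_zero fun x hx => ?_
    have h3 := mem_antidiagonal.1 hx
    rw [Nat.choose_eq_zero_of_lt (by omega), Nat.cast_zero, zero_smul]

private theorem op_poly {E : Type*} [AddCommGroup E] [Module ℂ E] {D : ℕ} (P : ℕ → ℕ → E) {N : ℕ}
    (h : ∀ i < D, ∑ x ∈ antidiagonal N, (x.2.choose i : ℂ) • P x.1 x.2 = 0) :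
    ∀ n ≤ D, ∀ q : ℂ[X], (∀ m, n ≤ m → q.coeff m = 0) →
      ∑ x ∈ antidiagonal N, q.eval (x.2 : ℂ) • P x.1 x.2 = 0 := by
  intro n
  induction n with
  | zero =>
    intro _ q hq
    have h1 : q = 0 := by
      ext m
      rw [hq m (Nat.zero_le m), coeff_zero]
    simp [h1]
  | succ n ih =>
    intro hn q hq
    set c := q.coeff n with hc
    have hd : (descPochhammer ℂ n).natDegree = n := descPochhammer_natDegree ℂ n
    have hmon : (descPochhammer ℂ n).coeff n = 1 := by
      have := (monic_descPochhammer ℂ n).coeff_natDegree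
      rwa [hd] at this
    have h1 := ih (by omega) (q - C c * descPochhammer ℂ n) (fun m hm => by
      rw [coeff_sub, coeff_C_mul]
      rcases Nat.eq_or_lt_of_le hm with rfl | hm'
      · rw [hmon, hc]
        ring
      · rw [hq m (by omega), coeff_eq_zero_of_natDegree_lt (by omega)]
        ring)
    have h2 := h n (by omega)
    have h3 : ∑ x ∈ antidiagonal N, (descPochhammer ℂ n).eval (x.2 : ℂ) • P x.1 x.2 = 0 := by
      have h4 : ∑ x ∈ antidiagonal N, (descPochhammer ℂ n).eval (x.2 : ℂ) • P x.1 x.2 =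
          (n.factorial : ℂ) • ∑ x ∈ antidiagonal N, (x.2.choose n : ℂ) • P x.1 x.2 := by
        rw [Finset.smul_sum]
        refine Finset.sum_congr rfl fun x _ => ?_
        rw [descPochhammer_eval_eq_descFactorial, Nat.descFactorial_eq_factorial_mul_choose,
          smul_smul, Nat.cast_mul]
      rw [h4, h2, smul_zero]
    have h5 : ∑ x ∈ antidiagonal N, q.eval (x.2 : ℂ) • P x.1 x.2 =
        ∑ x ∈ antidiagonal N, (q - C c * descPochhammer ℂ n).eval (x.2 : ℂ) • P x.1 x.2 +
        c • ∑ x ∈ antidiagonal N, (descPochhammer ℂ n).eval (x.2 : ℂ) • P x.1 x.2 := by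
      rw [Finset.smul_sum, ← Finset.sum_add_distrib]
      refine Finset.sum_congr rfl fun x _ => ?_
      rw [smul_smul, ← add_smul, eval_sub, eval_mul, eval_C]
      congr 1
      ring
    rw [h5, h1, h3, smul_zero, add_zero]

theorem one_pair {E : Type*} [AddCommGroup E] [Module ℂ E] {D : ℕ} (hD : 2 ≤ D) {K : ℕ}
    (P : ℕ → ℕ → E) (hK : ∀ a b, P a b ≠ 0 → a < K ∧ b < K) (h0 : ∃ a b, P a b ≠ 0)
    (hkill : ∀ v : ℂ, ∑ a ∈ Finset.range K, ∑ b ∈ Finset.range K,
      (v ^ (D * a) * (v ^ D + v) ^ b) • P a b = 0) :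
    ∃ (N : ℕ) (S : Finset ℕ), S.card = D + 1 ∧ (∀ a ∈ S, a ≤ N ∧ P a (N - a) ≠ 0) ∧
      ∀ a b, N < a + b → P a b = 0 := by
  classical
  obtain ⟨a1, b1, h1⟩ := h0
  set T : Finset (ℕ × ℕ) := (range K ×ˢ range K).filter (fun x => P x.1 x.2 ≠ 0) with hT
  have hmem : ∀ a b, P a b ≠ 0 → (a, b) ∈ T := by
    intro a b hab
    obtain ⟨h2, h3⟩ := hK a b hab
    exact mem_filter.2 ⟨mem_product.2 ⟨mem_range.2 h2, mem_range.2 h3⟩, hab⟩
  obtain ⟨⟨a0, b0⟩, hx, hmax⟩ := Finset.exists_max_image T (fun x => x.1 + x.2)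
    ⟨(a1, b1), hmem a1 b1 h1⟩
  have hP0 : P a0 b0 ≠ 0 := (mem_filter.1 hx).2
  set N := a0 + b0 with hN
  have hNz : ∀ a b, N < a + b → P a b = 0 := by
    intro a b hab
    by_contra h2
    have h3 := hmax (a, b) (hmem a b h2)
    simp only at h3
    omega
  set S : Finset ℕ := (range (N + 1)).filter (fun a => P a (N - a) ≠ 0) with hS
  have ha0 : a0 ∈ S := by
    refine mem_filter.2 ⟨mem_range.2 (by omega), ?_⟩
    rw [show N - a0 = b0 by omega]
    exact hP0
  by_cases hcard : D + 1 ≤ S.card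
  · obtain ⟨S', hS', hc'⟩ := Finset.exists_subset_card_eq hcard
    refine ⟨N, S', hc', fun a ha => ?_, hNz⟩
    have h2 := mem_filter.1 (hS' ha)
    exact ⟨by have := mem_range.1 h2.1; omega, h2.2⟩
  · exfalso
    set q : ℂ[X] := ∏ a ∈ S.erase a0, (X - C (((N - a : ℕ) : ℂ))) with hq
    have hdeg : q.natDegree = S.card - 1 := by
      rw [hq, natDegree_prod_of_monic _ _ (fun a _ => monic_X_sub_C _),
        Finset.sum_congr rfl (fun a _ => natDegree_X_sub_C _), Finset.sum_const, smul_eq_mul,
        mul_one, Finset.card_erase_of_mem ha0]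
    have hcpos : 0 < S.card := Finset.card_pos.2 ⟨a0, ha0⟩
    have h2 := op_poly P (fun i hi => op_anti hD P hK hkill hNz hi) D le_rfl q
      (fun m hm => coeff_eq_zero_of_natDegree_lt (by omega))
    rw [Finset.sum_eq_single (a0, b0)] at h2
    · rcases smul_eq_zero.1 h2 with h3 | h3
      · simp only at h3
        rw [hq, eval_prod, Finset.prod_eq_zero_iff] at h3
        obtain ⟨a, ha, h4⟩ := h3
        rw [mem_erase] at ha
        have h5 := mem_range.1 (mem_filter.1 ha.2).1
        rw [eval_sub, eval_X, eval_C, sub_eq_zero] at h4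
        have h6 : b0 = N - a := by exact_mod_cast h4
        omega
      · exact hP0 h3
    · intro x hx hne
      have h3 := mem_antidiagonal.1 hx
      by_cases h4 : x.1 ∈ S
      · have h5 : x.1 ≠ a0 := by
          intro h6
          apply hne
          ext
          · exact h6
          · simp only
            omega
        have h6 : q.eval (x.2 : ℂ) = 0 := by
          rw [hq, eval_prod]
          apply Finset.prod_eq_zero (mem_erase.2 ⟨h5, h4⟩)
          rw [eval_sub, eval_X, eval_C, show N - x.1 = x.2 by omega, sub_self]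
        rw [h6, zero_smul]
      · have h5 : P x.1 x.2 = 0 := by
          by_contra h6
          apply h4
          refine mem_filter.2 ⟨mem_range.2 (by omega), ?_⟩
          rw [show N - x.1 = x.2 by omega]
          exact h6
        rw [h5, smul_zero]
    · intro h3
      exact absurd (mem_antidiagonal.2 hN.symm) h3

end Pool.Agent.Helper7.PD
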