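import Mathlib
import Pool.Agent.Helper7.PD.OnePair

/-!
# PD-2: the rank lemma for coefficient arrays

Proof. Induction on `p`. `p = 0`: the index type `Fin 0 → Fin (D + 1)` has one element, and
`C (s κ) ≠ 0` for `s κ = Fin.elim0` by `h0`.
`p + 1`: let `E = (Fin p → ℕ) → (Fin p → ℕ) → ℂ` and `P a b = fun σ τ => C (Fin.cons a σ)
(Fin.cons b τ)`. Apply `one_pair` (the hypothesis is `hkill 0`, with
`Function.update (Fin.cons _ σ) 0 a = Fin.cons a σ`, `Fin.update_cons_zero`); get `N` and `S` with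
`D + 1` elements. For `a ∈ S` the array
`P a (N - a)` satisfies the hypotheses for `p` (`Bdd` and, for `l : Fin p`, `Kill` from
`hkill l.succ`: `Function.update (Fin.cons a σ) l.succ c = Fin.cons a (Function.update σ l c)`,
`Fin.cons_update`), so the
induction gives `s a : (Fin p → Fin (D + 1)) → (Fin p → ℕ)` with `fun κ => P a (N - a) (s a κ)`
linearly independent. Enumerate `S` increasingly by `e = S.orderEmbOfFin h : Fin (D + 1) ↪o ℕ` and
put `s κ = Fin.cons (e (κ 0)) (s (e (κ 0)) (Fin.tail κ))`.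
Linear independence (`Fintype.linearIndependent_iff`): let `∑ κ, g κ • C (s κ) = 0`. Suppose some
`g κ ≠ 0`; choose the smallest `i : Fin (D + 1)` such that `g κ ≠ 0` for some `κ` with `κ 0 = i`.
Evaluate the relation at `Fin.cons (N - e i) τ` for all `τ`: the terms with `κ 0 < i` have `g κ = 0`,
the terms with `κ 0 = i' > i` are `P (e i') (N - e i) _ τ = 0` because `e i' + (N - e i) > N`; so
`∑ κ with κ 0 = i, g κ * P (e i) (N - e i) (s (e i) (tail κ)) τ = 0` for all `τ`, so these `g κ` are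
`0`, contradiction.
-/

namespace Pool.Agent.Helper7.PD

/-- Arrays with bounded support. -/
def Bdd (K : ℕ) {p : ℕ} (C : (Fin p → ℕ) → (Fin p → ℕ) → ℂ) : Prop :=
  ∀ σ τ, C σ τ ≠ 0 → ∀ l, σ l < K ∧ τ l < K

/-- The substitution `(v ^ D, v ^ D + v)` in the pair of variables number `l` kills the array. -/
def Kill (D K : ℕ) {p : ℕ} (C : (Fin p → ℕ) → (Fin p → ℕ) → ℂ) (l : Fin p) : Prop :=
  ∀ (σ τ : Fin p → ℕ) (v : ℂ), ∑ a ∈ Finset.range K, ∑ b ∈ Finset.range K,
    (v ^ (D * a) * (v ^ D + v) ^ b) *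
      C (Function.update σ l a) (Function.update τ l b) = 0

private lemma sum_cons {D p : ℕ} {M : Type*} [AddCommMonoid M]
    (f : (Fin (p + 1) → Fin (D + 1)) → M) :
    ∑ κ, f κ = ∑ i : Fin (D + 1), ∑ κ' : Fin p → Fin (D + 1),
      f (Fin.cons (α := fun _ => Fin (D + 1)) i κ') := by
  rw [← Fintype.sum_prod_type']
  exact ((Fin.consEquiv (fun _ : Fin (p + 1) => Fin (D + 1))).sum_comp f).symm

theorem rank_array {D : ℕ} (hD : 2 ≤ D) (K : ℕ) : ∀ (p : ℕ)
    (C : (Fin p → ℕ) → (Fin p → ℕ) → ℂ), Bdd K C → (∃ σ τ, C σ τ ≠ 0) → (∀ l, Kill D K C l) →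
    ∃ s : (Fin p → Fin (D + 1)) → (Fin p → ℕ), LinearIndependent ℂ fun κ => C (s κ) := by
  intro p
  induction p with
  | zero =>
    intro C _ h0 _
    obtain ⟨σ, τ, h⟩ := h0
    refine ⟨fun _ => σ, ?_⟩
    rw [Fintype.linearIndependent_iff]
    intro g hg κ
    rw [Fintype.sum_unique] at hg
    have h1 := congrFun hg τ
    rw [Pi.smul_apply, smul_eq_mul, Pi.zero_apply] at h1
    rw [Unique.eq_default κ]
    exact (mul_eq_zero.1 h1).resolve_right h
  | succ p ih =>
    intro C hB h0 hk
    obtain ⟨P, hP⟩ : ∃ P : ℕ → ℕ → ((Fin p → ℕ) → (Fin p → ℕ) → ℂ), ∀ a b σ τ,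
        P a b σ τ = C (Fin.cons (α := fun _ => ℕ) a σ) (Fin.cons (α := fun _ => ℕ) b τ) :=
      ⟨fun a b σ τ => C (Fin.cons (α := fun _ => ℕ) a σ) (Fin.cons (α := fun _ => ℕ) b τ),
        fun _ _ _ _ => rfl⟩
    have hK : ∀ a b, P a b ≠ 0 → a < K ∧ b < K := by
      intro a b hab
      obtain ⟨σ, hσ⟩ := Function.ne_iff.1 hab
      obtain ⟨τ, hτ⟩ := Function.ne_iff.1 hσ
      have h1 := hB _ _ (by rw [hP] at hτ; exact hτ) 0
      simpa using h1
    have h0' : ∃ a b, P a b ≠ 0 := by
      obtain ⟨σ, τ, h⟩ := h0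
      refine ⟨σ 0, τ 0, fun hcon => h ?_⟩
      have h1 := congrFun (congrFun hcon (Fin.tail σ)) (Fin.tail τ)
      rw [hP, Fin.cons_self_tail, Fin.cons_self_tail] at h1
      exact h1
    have hkill : ∀ v : ℂ, ∑ a ∈ Finset.range K, ∑ b ∈ Finset.range K,
        (v ^ (D * a) * (v ^ D + v) ^ b) • P a b = 0 := by
      intro v
      funext σ τ
      have h1 := hk 0 (Fin.cons (α := fun _ => ℕ) 0 σ) (Fin.cons (α := fun _ => ℕ) 0 τ) v
      simp only [Fin.update_cons_zero] at h1
      simp only [Finset.sum_apply, Pi.smul_apply, smul_eq_mul, hP, Pi.zero_apply]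
      exact h1
    obtain ⟨N, S, hS, hSN, htop⟩ := one_pair hD P hK h0' hkill
    have hrec : ∀ a ∈ S, ∃ s : (Fin p → Fin (D + 1)) → (Fin p → ℕ),
        LinearIndependent ℂ fun κ => P a (N - a) (s κ) := by
      intro a ha
      refine ih (P a (N - a)) ?_ ?_ ?_
      · intro σ τ h l
        rw [hP] at h
        have h1 := hB _ _ h l.succ
        simpa using h1
      · obtain ⟨σ, hσ⟩ := Function.ne_iff.1 (hSN a ha).2
        obtain ⟨τ, hτ⟩ := Function.ne_iff.1 hσ
        exact ⟨σ, τ, hτ⟩
      · intro l σ τ v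
        have h1 := hk l.succ (Fin.cons (α := fun _ => ℕ) a σ)
          (Fin.cons (α := fun _ => ℕ) (N - a) τ) v
        simp only [← Fin.cons_update] at h1
        simp only [hP]
        exact h1
    choose! s hs using hrec
    obtain ⟨e, he⟩ : ∃ e : Fin (D + 1) ↪o ℕ, e = S.orderEmbOfFin hS := ⟨_, rfl⟩
    have heS : ∀ i, e i ∈ S := fun i => by rw [he]; exact Finset.orderEmbOfFin_mem S hS i
    refine ⟨fun κ => Fin.cons (α := fun _ => ℕ) (e (κ 0)) (s (e (κ 0)) (Fin.tail κ)), ?_⟩
    rw [Fintype.linearIndependent_iff]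
    intro g hg
    have key : ∀ i : Fin (D + 1), ∀ κ' : Fin p → Fin (D + 1),
        g (Fin.cons (α := fun _ => Fin (D + 1)) i κ') = 0 := by
      intro i
      induction i using WellFoundedLT.induction with
      | ind i ihi =>
        have h2 := Fintype.linearIndependent_iff.1 (hs (e i) (heS i))
          (fun κ' => g (Fin.cons (α := fun _ => Fin (D + 1)) i κ'))
        refine h2 ?_
        funext τ
        have h3 := congrFun hg (Fin.cons (α := fun _ => ℕ) (N - e i) τ)
        rw [Finset.sum_apply, sum_cons, Finset.sum_eq_single i] at h3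
        · rw [Finset.sum_apply]
          simp only [Pi.smul_apply, Fin.cons_zero, Fin.tail_cons, smul_eq_mul, Pi.zero_apply] at h3
          simp only [Pi.smul_apply, smul_eq_mul, Pi.zero_apply, hP]
          exact h3
        · intro j _ hj
          refine Finset.sum_eq_zero fun κ' _ => ?_
          rcases lt_or_gt_of_ne hj with hlt | hgt
          · rw [Pi.smul_apply, ihi j hlt κ', zero_smul]
          · have h4 : e i < e j := e.strictMono hgt
            have h5 := (hSN (e i) (heS i)).1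
            have h6 := htop (e j) (N - e i) (by omega)
            have h7 := congrFun (congrFun h6 (s (e j) κ')) τ
            rw [hP] at h7
            simp only [Pi.smul_apply, Fin.cons_zero, Fin.tail_cons, smul_eq_mul]
            rw [h7]
            simp
        · intro h
          exact absurd (Finset.mem_univ i) h
    intro κ
    have h8 := key (κ 0) (Fin.tail κ)
    rwa [Fin.cons_self_tail] at h8

end Pool.Agent.Helper7.PD
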