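import Mathlib

/-!
# PD: polynomial-size hitting sets for low partial derivative dimension: definitions

Curves are indexed by a level `t` and a sequence `y : ℕ → ℕ` of leaf weights (only the values
`y k`, `k < 2 ^ t` matter).
-/

namespace Pool.Agent.Helper7.PD

open MvPolynomial

/-- `f (x + y) = ∑ k < r, A k (x) * B k (y)`. -/
def RankLe {n : ℕ} (r : ℕ) (f : MvPolynomial (Fin n) ℂ) : Prop :=
  ∃ A B : Fin r → MvPolynomial (Fin n) ℂ, ∀ x y : Fin n → ℂ,
    eval (x + y) f = ∑ k, eval x (A k) * eval y (B k)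

/-- The curve of level `t` with leaf weights `y`. Level `0`: `z ↦ y 0 * (1, z, z ^ 2, ...)`. Level
`t + 1`: the curve of level `t` with weights `y` at `z ^ Δ t` plus the curve of level `t` with the
weights `y (· + 2 ^ t)` at `z ^ Δ t + z`. -/
def crv {R : Type*} [CommSemiring R] (n : ℕ) (Δ : ℕ → ℕ) : ℕ → (ℕ → ℕ) → R → Fin n → R
  | 0, y, z => fun i => (y 0 : R) * z ^ (i : ℕ)
  | t + 1, y, z => fun i =>
      crv n Δ t y (z ^ Δ t) i + crv n Δ t (fun k => y (k + 2 ^ t)) (z ^ Δ t + z) i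

/-- The norm of the weights at level `t`. -/
def nrm (t : ℕ) (y : ℕ → ℕ) : ℕ := ∏ k ∈ Finset.range (2 ^ t), (y k + 1)

/-- The image of a curve over the complex numbers. -/
def Im (n : ℕ) (Δ : ℕ → ℕ) (t : ℕ) (y : ℕ → ℕ) : Set (Fin n → ℂ) := Set.range (crv n Δ t y)

/-- The weights of the combination of two curves. -/
def comb (t : ℕ) (y y' : ℕ → ℕ) : ℕ → ℕ := fun k => if k < 2 ^ t then y k else y' (k - 2 ^ t)

section crv

variable {R S : Type*} [CommSemiring R] [CommSemiring S] (n : ℕ) (Δ : ℕ → ℕ)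

theorem crv_zero (y : ℕ → ℕ) (z : R) (i : Fin n) : crv n Δ 0 y z i = (y 0 : R) * z ^ (i : ℕ) := rfl

theorem crv_succ (t : ℕ) (y : ℕ → ℕ) (z : R) (i : Fin n) : crv n Δ (t + 1) y z i =
    crv n Δ t y (z ^ Δ t) i + crv n Δ t (fun k => y (k + 2 ^ t)) (z ^ Δ t + z) i := rfl

theorem crv_congr (t : ℕ) : ∀ (y y' : ℕ → ℕ) (z : R), (∀ k < 2 ^ t, y k = y' k) →
    crv n Δ t y z = crv n Δ t y' z := by
  induction t with
  | zero =>
    intro y y' z h
    funext i
    rw [crv_zero, crv_zero, h 0 (by norm_num)]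
  | succ t ih =>
    intro y y' z h
    funext i
    rw [crv_succ, crv_succ]
    rw [ih y y' _ (fun k hk => h k (lt_trans hk (by rw [pow_succ]; omega)))]
    rw [ih (fun k => y (k + 2 ^ t)) (fun k => y' (k + 2 ^ t)) _
      (fun k hk => h _ (by rw [pow_succ]; omega))]

theorem crv_map (φ : R →+* S) (t : ℕ) : ∀ (y : ℕ → ℕ) (z : R) (i : Fin n),
    φ (crv n Δ t y z i) = crv n Δ t y (φ z) i := by
  induction t with
  | zero =>
    intro y z i
    rw [crv_zero, crv_zero, map_mul, map_natCast, map_pow]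
  | succ t ih =>
    intro y z i
    rw [crv_succ, crv_succ, map_add, ih, ih, map_add, map_pow]

theorem crv_zero_weights (t : ℕ) : ∀ (y : ℕ → ℕ) (z : R), (∀ k, y k = 0) →
    crv n Δ t y z = 0 := by
  induction t with
  | zero =>
    intro y z h
    funext i
    rw [crv_zero, h, Nat.cast_zero, zero_mul]
    rfl
  | succ t ih =>
    intro y z h
    funext i
    rw [crv_succ, ih y _ h, ih (fun k => y (k + 2 ^ t)) _ (fun k => h _)]
    simp

theorem crv_comb (t : ℕ) (y y' : ℕ → ℕ) (z : R) : crv n Δ (t + 1) (comb t y y') z =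
    crv n Δ t y (z ^ Δ t) + crv n Δ t y' (z ^ Δ t + z) := by
  funext i
  rw [crv_succ, Pi.add_apply]
  rw [crv_congr n Δ t (comb t y y') y _ (fun k hk => by rw [comb, if_pos hk])]
  rw [crv_congr n Δ t (fun k => comb t y y' (k + 2 ^ t)) y' _ (fun k hk => by
    change comb t y y' (k + 2 ^ t) = y' k
    rw [comb, if_neg (by omega), Nat.add_sub_cancel])]

end crv

theorem nrm_pos (t : ℕ) (y : ℕ → ℕ) : 0 < nrm t y :=
  Finset.prod_pos fun _ _ => Nat.succ_pos _

theorem nrm_comb (t : ℕ) (y y' : ℕ → ℕ) : nrm (t + 1) (comb t y y') = nrm t y * nrm t y' := by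
  rw [nrm, nrm, nrm, pow_succ, mul_two, Finset.prod_range_add]
  congr 1
  · refine Finset.prod_congr rfl fun k hk => ?_
    rw [comb, if_pos (Finset.mem_range.1 hk)]
  · refine Finset.prod_congr rfl fun k hk => ?_
    rw [comb, if_neg (by omega), Nat.add_sub_cancel_left]

theorem nrm_zero_weights (t : ℕ) : nrm t (fun _ => 0) = 1 := by
  rw [nrm]
  exact Finset.prod_eq_one fun _ _ => rfl

/-- Combination of two curves. -/
theorem Im_comb {n : ℕ} {Δ : ℕ → ℕ} (t : ℕ) (y y' : ℕ → ℕ) (v : ℂ) :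
    crv n Δ t y (v ^ Δ t) + crv n Δ t y' (v ^ Δ t + v) ∈ Im n Δ (t + 1) (comb t y y') :=
  ⟨v, crv_comb n Δ t y y' v⟩

/-- A single curve: combine it with the zero curve. -/
theorem Im_single {n : ℕ} {Δ : ℕ → ℕ} (t : ℕ) (hΔ : 0 < Δ t) (y : ℕ → ℕ) :
    Im n Δ (t + 1) (comb t y (fun _ => 0)) = Im n Δ t y := by
  ext x
  constructor
  · rintro ⟨v, rfl⟩
    refine ⟨v ^ Δ t, ?_⟩
    rw [crv_comb, crv_zero_weights n Δ t _ _ (fun _ => rfl), add_zero]
  · rintro ⟨z, rfl⟩
    obtain ⟨v, hv⟩ := IsAlgClosed.exists_pow_nat_eq z hΔ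
    refine ⟨v, ?_⟩
    rw [crv_comb, crv_zero_weights n Δ t _ _ (fun _ => rfl), add_zero, hv]

end Pool.Agent.Helper7.PD
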