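import Mathlib
import Pool.Agent.Helper7.PD.Defs

/-!
# PD-11: the translation rank: sums, products, polynomials in few affine forms

* `mono`: extend the families `A, B : Fin r → _` by `0` to `Fin s` (e.g.
  `fun k => if h : k < r then A ⟨k, h⟩ else 0`).
* A convenient reformulation: `RankLe r f` as soon as there are a finite type `ι` with
  `Fintype.card ι ≤ r` and families `A B : ι → _` with the identity (`Fintype.equivFin`, `mono`).
* `sum`: index type `Σ i, Fin (r i)` (`Fintype.card_sigma`). `mul`: index type `Fin r × Fin s`.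
* `few_affine`: for all `x y`: `l j (x + y) = u j + v j` with `u j = eval x (l j)`,
  `v j = eval y (l j - C (eval 0 (l j)))`
  (affine: total degree `≤ 1`; `l j = C a + ∑ c i X i`). `F` is a sum of monomials `c X ^ s` with all
  `s j ≤ d`, and `∏ (u j + v j) ^ s j = ∏ j, ∑ m ≤ s j, (s j choose m) u j ^ m v j ^ (s j - m)` (`add_pow`,
  `Finset.prod_univ_sum`); collect by `m : Fin κ → Fin (d + 1)`: `A m = ∏ j, (l j) ^ m j`,
  `B m = ∑ s ∈ F.support, C (coeff s F * ∏ j, (s j choose m j)) * ∏ j, (l j - C _) ^ (s j - m j)`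
  (the binomial coefficient is `0` if `m j > s j`). `Fintype.card (Fin κ → Fin (d + 1)) = (d + 1) ^ κ`.
* `totalDegree_aeval_le`: sum over the support, `totalDegree_finsetSum_le`, `totalDegree_mul_le`,
  `totalDegree_finsetProd_le`, `totalDegree_pow_le`.
-/

namespace Pool.Agent.Helper7.PD

open MvPolynomial

private theorem rank_of {n r : ℕ} {f : MvPolynomial (Fin n) ℂ} {ι : Type*} [Fintype ι]
    (hι : Fintype.card ι ≤ r) (A B : ι → MvPolynomial (Fin n) ℂ)
    (h : ∀ x y : Fin n → ℂ, eval (x + y) f = ∑ k, eval x (A k) * eval y (B k)) : RankLe r f := by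
  obtain ⟨e⟩ := Function.Embedding.nonempty_of_card_le (α := ι) (β := Fin r)
    (by rw [Fintype.card_fin]; exact hι)
  refine ⟨Function.extend e A 0, Function.extend e B 0, fun x y => ?_⟩
  rw [h]
  refine Fintype.sum_of_injective e e.injective _ _ ?_ ?_
  · intro k hk
    rw [Function.extend_apply' _ _ _ (fun ⟨i, hi⟩ => hk ⟨i, hi⟩)]
    simp
  · intro i
    rw [e.injective.extend_apply, e.injective.extend_apply]

theorem RankLe.mono {n r s : ℕ} {f : MvPolynomial (Fin n) ℂ} (h : RankLe r f) (hrs : r ≤ s) :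
    RankLe s f := by
  obtain ⟨A, B, hAB⟩ := h
  exact rank_of (by rw [Fintype.card_fin]; exact hrs) A B hAB

theorem RankLe.sum {n s : ℕ} (f : Fin s → MvPolynomial (Fin n) ℂ) (r : Fin s → ℕ)
    (h : ∀ i, RankLe (r i) (f i)) : RankLe (∑ i, r i) (∑ i, f i) := by
  choose A B hAB using h
  refine rank_of (ι := Σ i, Fin (r i)) (by simp [Fintype.card_sigma]) (fun k => A k.1 k.2)
    (fun k => B k.1 k.2) fun x y => ?_
  rw [map_sum, Fintype.sum_sigma]
  exact Finset.sum_congr rfl fun i _ => hAB i x y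

theorem RankLe.mul {n r s : ℕ} {f g : MvPolynomial (Fin n) ℂ} (hf : RankLe r f)
    (hg : RankLe s g) : RankLe (r * s) (f * g) := by
  obtain ⟨A, B, hAB⟩ := hf
  obtain ⟨A', B', hAB'⟩ := hg
  refine rank_of (ι := Fin r × Fin s) (by simp) (fun k => A k.1 * A' k.2)
    (fun k => B k.1 * B' k.2) fun x y => ?_
  rw [map_mul, hAB, hAB', Finset.sum_mul_sum, Fintype.sum_prod_type]
  refine Finset.sum_congr rfl fun i _ => Finset.sum_congr rfl fun j _ => ?_
  simp only [map_mul]
  ring

private theorem small_exp {n : ℕ} (s : Fin n →₀ ℕ) (hs : ∑ i, s i ≤ 1) :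
    s = 0 ∨ ∃ i, s = Finsupp.single i 1 := by
  classical
  by_cases h : s = 0
  · exact Or.inl h
  · right
    obtain ⟨i, hi⟩ : ∃ i, s i ≠ 0 := by
      by_contra hcon
      push Not at hcon
      exact h (Finsupp.ext hcon)
    refine ⟨i, Finsupp.ext fun j => ?_⟩
    by_cases hj : j = i
    · subst hj
      rw [Finsupp.single_eq_same]
      have := Finset.single_le_sum (f := fun i => s i) (fun _ _ => Nat.zero_le _)
        (Finset.mem_univ j)
      omega
    · rw [Finsupp.single_eq_of_ne hj]
      have h1 : ∑ k ∈ ({i, j} : Finset (Fin n)), s k ≤ ∑ k, s k :=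
        Finset.sum_le_sum_of_subset (Finset.subset_univ _)
      rw [Finset.sum_pair (Ne.symm hj)] at h1
      omega

private theorem affine_add {n : ℕ} (l : MvPolynomial (Fin n) ℂ) (hl : l.totalDegree ≤ 1)
    (x y : Fin n → ℂ) : eval (x + y) l = eval x l + eval y (l - C (eval 0 l)) := by
  have key : eval (x + y) l + eval 0 l = eval x l + eval y l := by
    rw [l.as_sum]
    simp only [map_sum]
    rw [← Finset.sum_add_distrib, ← Finset.sum_add_distrib]
    refine Finset.sum_congr rfl fun s hs => ?_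
    have h1 := le_totalDegree hs
    rw [Finsupp.sum_fintype _ _ (fun _ => rfl)] at h1
    rcases small_exp s (h1.trans hl) with rfl | ⟨i, rfl⟩
    · simp only [eval_monomial, Finsupp.prod_zero_index]
    · simp only [eval_monomial, Finsupp.prod_single_index, pow_one, pow_zero, Pi.add_apply,
        Pi.zero_apply, mul_zero, add_zero, mul_add]
  rw [map_sub, eval_C]
  linear_combination key

private theorem pow_expand (u v : ℂ) {s d : ℕ} (hs : s ≤ d) :
    (u + v) ^ s = ∑ m : Fin (d + 1), u ^ (m : ℕ) * ((s.choose m : ℂ) * v ^ (s - (m : ℕ))) := by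
  rw [Fin.sum_univ_eq_sum_range (fun m => u ^ m * ((s.choose m : ℂ) * v ^ (s - m))) (d + 1),
    add_pow]
  rw [← Finset.sum_subset (Finset.range_subset_range.2 (Nat.succ_le_succ hs))]
  · refine Finset.sum_congr rfl fun m _ => ?_
    ring
  · intro m _ hm
    rw [Finset.mem_range, not_lt] at hm
    rw [Nat.choose_eq_zero_of_lt (by omega)]
    simp

theorem RankLe.few_affine {n κ d : ℕ} (l : Fin κ → MvPolynomial (Fin n) ℂ)
    (hl : ∀ j, (l j).totalDegree ≤ 1) (F : MvPolynomial (Fin κ) ℂ) (hF : F.totalDegree ≤ d) :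
    RankLe ((d + 1) ^ κ) (aeval l F) := by
  classical
  refine rank_of (ι := Fin κ → Fin (d + 1)) (by simp) (fun m => ∏ j, (l j) ^ (m j : ℕ))
    (fun m => ∑ s ∈ F.support, C (coeff s F) *
      ∏ j, (C (((s j).choose (m j) : ℕ) : ℂ) * (l j - C (eval 0 (l j))) ^ (s j - (m j : ℕ))))
    fun x y => ?_
  have h1 : eval (x + y) (aeval l F) = eval (fun j => eval (x + y) (l j)) F := by
    have h := eval₂Hom_bind₁ (RingHom.id ℂ) (x + y) l F
    exact h
  rw [h1, eval_eq']
  have h2 : ∀ s ∈ F.support, coeff s F * ∏ j, (eval (x + y) (l j)) ^ s j =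
      ∑ m : Fin κ → Fin (d + 1), eval x (∏ j, (l j) ^ (m j : ℕ)) * (coeff s F *
        ∏ j, ((((s j).choose (m j) : ℕ) : ℂ) *
          (eval y (l j - C (eval 0 (l j)))) ^ (s j - (m j : ℕ)))) := by
    intro s hs
    have h3 := le_totalDegree hs
    rw [Finsupp.sum_fintype _ _ (fun _ => rfl)] at h3
    have h4 : ∀ j, s j ≤ d := fun j =>
      ((Finset.single_le_sum (f := fun i => s i) (fun _ _ => Nat.zero_le _)
        (Finset.mem_univ j)).trans h3).trans hF
    have h5 : ∏ j, (eval (x + y) (l j)) ^ s j = ∑ m : Fin κ → Fin (d + 1),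
        ∏ j, ((eval x (l j)) ^ (m j : ℕ) * ((((s j).choose (m j) : ℕ) : ℂ) *
          (eval y (l j - C (eval 0 (l j)))) ^ (s j - (m j : ℕ)))) := by
      have h6 := Finset.prod_univ_sum (fun _ : Fin κ => (Finset.univ : Finset (Fin (d + 1))))
        (fun j m => (eval x (l j)) ^ (m : ℕ) * ((((s j).choose m : ℕ) : ℂ) *
          (eval y (l j - C (eval 0 (l j)))) ^ (s j - (m : ℕ))))
      rw [Fintype.piFinset_univ] at h6
      rw [← h6]
      refine Finset.prod_congr rfl fun j _ => ?_
      rw [affine_add (l j) (hl j) x y]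
      exact pow_expand _ _ (h4 j)
    rw [h5, Finset.mul_sum]
    refine Finset.sum_congr rfl fun m _ => ?_
    rw [Finset.prod_mul_distrib, map_prod]
    simp only [map_pow]
    ring
  rw [Finset.sum_congr rfl h2, Finset.sum_comm]
  refine Finset.sum_congr rfl fun m _ => ?_
  rw [map_sum, Finset.mul_sum]
  refine Finset.sum_congr rfl fun s _ => ?_
  simp only [map_mul, map_prod, map_pow, eval_C]

theorem totalDegree_aeval_le {n κ : ℕ} (l : Fin κ → MvPolynomial (Fin n) ℂ)
    (hl : ∀ j, (l j).totalDegree ≤ 1) (F : MvPolynomial (Fin κ) ℂ) :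
    (aeval l F).totalDegree ≤ F.totalDegree := by
  rw [aeval_def, eval₂_eq']
  refine totalDegree_finsetSum_le fun s hs => ?_
  have h3 := le_totalDegree hs
  rw [Finsupp.sum_fintype _ _ (fun _ => rfl)] at h3
  refine (totalDegree_mul _ _).trans ?_
  rw [algebraMap_eq, totalDegree_C, zero_add]
  refine (totalDegree_finsetProd _ _).trans ?_
  refine (Finset.sum_le_sum fun j _ => ?_).trans h3
  refine (totalDegree_pow _ _).trans ?_
  calc s j * (l j).totalDegree ≤ s j * 1 := Nat.mul_le_mul_left _ (hl j)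
    _ = s j := mul_one _

end Pool.Agent.Helper7.PD
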