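import Mathlib
import Pool.Agent.Helper7.PD.Defs

/-!
# PD-10: a small space of partial derivatives gives a small translation rank

`partials f` is the span of all iterated partial derivatives of `f` (including `f` itself).

Proof of `rankLe_of_finrank`. (1) `V = partials f` is finite dimensional: all iterated derivatives
have total degree at most `f.totalDegree` (`MvPolynomial.totalDegree_pderiv_le` if available, else
directly from the support), so `V` is contained in `MvPolynomial.restrictTotalDegree (Fin n) ℂ d`, which
is finite dimensional (it is spanned by the finitely many monomials of degree `≤ d`). Choose a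
basis `b` of `V` indexed by `Fin r'`, `r' = finrank V ≤ r`, and extend by `0` to `B : Fin r → V`.
(2) Taylor: for every `f` of total degree `≤ d`
`f (x + y) = ∑ m : Fin n → Fin (d + 1), (∏ i, x i ^ m i / (m i)!) * (∂ ^ m f) (y)`, where
`∂ ^ m f = (∏ i, (pderiv i) ^ m i) f` is an iterated derivative (some `foldr` of a list in which `i`
occurs `m i` times). Both sides are linear in `f`, so take `f = monomial s c` with all `s i ≤ d`:
`∏ i, (x i + y i) ^ s i = ∏ i, ∑ j ≤ s i, (s i choose j) x i ^ j y i ^ (s i - j)` (`add_pow`,
`Finset.prod_univ_sum`), and `∂ ^ m (monomial s c) = monomial (s - m) (c * ∏ i, (s i).descFactorial (m i))`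
(`MvPolynomial.pderiv_monomial`; induction on the list). If `m i > s i` for some `i` the term is `0`.
Any other proof of the following consequence is fine: *there are finitely many polynomials `a_i` and
elements `g_i ∈ V` with `f (x + y) = ∑ a_i (x) g_i (y)` for all `x, y`*.
(3) Write `∂ ^ m f = ∑ k, c m k • B k` and `A k = ∑ m, (c m k / ∏ (m i)!) X ^ m`.
-/

namespace Pool.Agent.Helper7.PD

open MvPolynomial

/-- The span of all iterated partial derivatives. -/
noncomputable def partials {n : ℕ} (f : MvPolynomial (Fin n) ℂ) :
    Submodule ℂ (MvPolynomial (Fin n) ℂ) :=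
  Submodule.span ℂ {g | ∃ l : List (Fin n), g = l.foldr (fun i h => pderiv i h) f}

/-- the line through `z` in direction `i` -/
private noncomputable def ln {n : ℕ} (i : Fin n) (z : Fin n → ℂ) : Fin n → Polynomial ℂ :=
  fun j => Polynomial.C (z j) + if j = i then Polynomial.X else 0

private theorem eval_ln {n : ℕ} (i : Fin n) (z : Fin n → ℂ) (t : ℂ) (f : MvPolynomial (Fin n) ℂ) :
    (aeval (ln i z) f).eval t = eval (z + Pi.single i t) f := by
  induction f using MvPolynomial.induction_on with
  | C a => simp
  | add p q hp hq => rw [map_add, Polynomial.eval_add, hp, hq, map_add]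
  | mul_X p j hp =>
    rw [map_mul, Polynomial.eval_mul, hp, map_mul, aeval_X, eval_X]
    congr 1
    unfold ln
    rw [Pi.add_apply, Polynomial.eval_add, Polynomial.eval_C]
    by_cases h : j = i
    · subst h
      rw [if_pos rfl, Polynomial.eval_X, Pi.single_eq_same]
    · rw [if_neg h, Polynomial.eval_zero, Pi.single_eq_of_ne h]

private theorem der_ln {n : ℕ} (i : Fin n) (z : Fin n → ℂ) (f : MvPolynomial (Fin n) ℂ) :
    Polynomial.derivative (aeval (ln i z) f) = aeval (ln i z) (pderiv i f) := by
  induction f using MvPolynomial.induction_on with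
  | C a => simp
  | add p q hp hq => rw [map_add, Polynomial.derivative_add, hp, hq, map_add, map_add]
  | mul_X p j hp =>
    rw [map_mul, Polynomial.derivative_mul, hp, aeval_X, pderiv_mul, map_add, map_mul, map_mul,
      aeval_X]
    congr 1
    congr 1
    rw [pderiv_X]
    unfold ln
    rw [Polynomial.derivative_add, Polynomial.derivative_C, zero_add]
    by_cases h : j = i
    · subst h
      simp
    · rw [if_neg h, Polynomial.derivative_zero, Pi.single_eq_of_ne h, map_zero]

private theorem der_iter_ln {n : ℕ} (i : Fin n) (z : Fin n → ℂ) (m : ℕ)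
    (f : MvPolynomial (Fin n) ℂ) :
    Polynomial.derivative^[m] (aeval (ln i z) f) = aeval (ln i z) ((pderiv i)^[m] f) := by
  induction m generalizing f with
  | zero => rfl
  | succ m ih =>
    rw [Function.iterate_succ_apply, Function.iterate_succ_apply, der_ln, ih]

/-- Taylor formula in one variable -/
private theorem taylor_one {n : ℕ} (i : Fin n) (f : MvPolynomial (Fin n) ℂ) (z : Fin n → ℂ)
    (t : ℂ) : eval (z + Pi.single i t) f = ∑ m ∈ Finset.range (f.totalDegree + 1),
      (t ^ m / (m.factorial : ℂ)) * eval z ((pderiv i)^[m] f) := by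
  have hdeg : (aeval (ln i z) f).natDegree < f.totalDegree + 1 := by
    have h := aeval_natDegree_le f le_rfl (ln i z) (n := 1) (by
      intro j
      unfold ln
      refine (Polynomial.natDegree_add_le _ _).trans (max_le ?_ ?_)
      · rw [Polynomial.natDegree_C]
        exact Nat.zero_le _
      · split_ifs
        · exact Polynomial.natDegree_X_le
        · simp)
    omega
  rw [← eval_ln, Polynomial.eval_eq_sum_range' hdeg]
  refine Finset.sum_congr rfl fun m _ => ?_
  have h1 : eval z ((pderiv i)^[m] f) = (m.factorial : ℂ) * (aeval (ln i z) f).coeff m := by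
    have h2 := eval_ln i z 0 ((pderiv i)^[m] f)
    rw [Pi.single_zero, add_zero] at h2
    rw [← h2, ← der_iter_ln, ← Polynomial.coeff_zero_eq_eval_zero,
      Polynomial.coeff_iterate_derivative, zero_add, Nat.descFactorial_self, nsmul_eq_mul]
  rw [h1]
  have h3 : (m.factorial : ℂ) ≠ 0 := by exact_mod_cast m.factorial_ne_zero
  field_simp

private theorem totalDegree_pderiv_le' {n : ℕ} (i : Fin n) (f : MvPolynomial (Fin n) ℂ) :
    (pderiv i f).totalDegree ≤ f.totalDegree := by
  rw [totalDegree, Finset.sup_le_iff]
  intro m hm
  rw [mem_support_iff, coeff_pderiv] at hm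
  have h1 : coeff (m + Finsupp.single i 1) f ≠ 0 := left_ne_zero_of_mul hm
  have h2 := le_totalDegree (mem_support_iff.mpr h1)
  rw [Finsupp.sum_add_index' (fun _ => rfl) (fun _ _ _ => rfl), Finsupp.sum_single_index rfl] at h2
  omega

private theorem partials_fd {n : ℕ} (f : MvPolynomial (Fin n) ℂ) :
    partials f ≤ restrictTotalDegree (Fin n) ℂ f.totalDegree := by
  rw [partials, Submodule.span_le]
  rintro g ⟨l, rfl⟩
  rw [SetLike.mem_coe, mem_restrictTotalDegree]
  induction l with
  | nil => exact le_rfl
  | cons i l ih => exact (totalDegree_pderiv_le' i _).trans ih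

private theorem partials_pderiv {n : ℕ} (f g : MvPolynomial (Fin n) ℂ) (i : Fin n)
    (hg : g ∈ partials f) : pderiv i g ∈ partials f := by
  rw [partials] at hg ⊢
  induction hg using Submodule.span_induction with
  | mem x hx =>
    obtain ⟨l, rfl⟩ := hx
    exact Submodule.subset_span ⟨i :: l, rfl⟩
  | zero => rw [map_zero]; exact Submodule.zero_mem _
  | add x y _ _ hx hy => rw [map_add]; exact Submodule.add_mem _ hx hy
  | smul a x _ hx => rw [Derivation.map_smul]; exact Submodule.smul_mem _ a hx

private theorem partials_pderiv_iter {n : ℕ} (f : MvPolynomial (Fin n) ℂ) (i : Fin n) (m : ℕ) :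
    ∀ g ∈ partials f, (pderiv i)^[m] g ∈ partials f := by
  induction m with
  | zero => intro g hg; exact hg
  | succ m ih =>
    intro g hg
    rw [Function.iterate_succ_apply]
    exact ih _ (partials_pderiv f g i hg)

theorem rankLe_of_finrank {n r : ℕ} {f : MvPolynomial (Fin n) ℂ}
    (h : Module.finrank ℂ (partials f) ≤ r) : RankLe r f := by
  classical
  have hfd : Module.Finite ℂ (partials f) :=
    Submodule.finiteDimensional_of_le (partials_fd f)
  set r' := Module.finrank ℂ (partials f) with hr'
  let b : Module.Basis (Fin r') ℂ (partials f) := Module.finBasis ℂ (partials f)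
  have hfmem : f ∈ partials f := Submodule.subset_span ⟨[], rfl⟩
  -- the main claim
  have key : ∀ S : Finset (Fin n), ∀ g ∈ partials f, ∃ A : Fin r' → MvPolynomial (Fin n) ℂ,
      ∀ x y : Fin n → ℂ, eval (y + fun j => if j ∈ S then x j else 0) g =
        ∑ k, eval x (A k) * eval y ((b k : partials f) : MvPolynomial (Fin n) ℂ) := by
    intro S
    induction S using Finset.induction_on with
    | empty =>
      intro g hg
      refine ⟨fun k => C (b.repr ⟨g, hg⟩ k), fun x y => ?_⟩
      have h1 : (y + fun j => if j ∈ (∅ : Finset (Fin n)) then x j else 0) = y := by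
        funext j
        simp
      rw [h1]
      have h2 := b.sum_repr ⟨g, hg⟩
      have h3 : g = ∑ k, b.repr ⟨g, hg⟩ k • ((b k : partials f) : MvPolynomial (Fin n) ℂ) := by
        have h4 := congrArg (Subtype.val) h2
        simp only [Submodule.coe_sum, Submodule.coe_smul] at h4
        exact h4.symm
      conv_lhs => rw [h3]
      rw [map_sum]
      refine Finset.sum_congr rfl fun k _ => ?_
      rw [eval_C, smul_eval]
    | insert i S hi ih =>
      intro g hg
      choose A hA using fun m : ℕ => ih _ (partials_pderiv_iter f i m g hg)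
      refine ⟨fun k => ∑ m ∈ Finset.range (g.totalDegree + 1),
        C (1 / (m.factorial : ℂ)) * X i ^ m * A m k, fun x y => ?_⟩
      have h1 : (y + fun j => if j ∈ insert i S then x j else 0) =
          (y + fun j => if j ∈ S then x j else 0) + Pi.single i (x i) := by
        funext j
        simp only [Pi.add_apply, Finset.mem_insert]
        by_cases hj : j = i
        · subst hj
          rw [if_pos (Or.inl rfl), if_neg hi, Pi.single_eq_same]
          ring
        · rw [Pi.single_eq_of_ne hj]
          simp [hj]
      rw [h1, taylor_one i g]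
      have h2 : ∀ m ∈ Finset.range (g.totalDegree + 1), x i ^ m / (m.factorial : ℂ) *
          eval (y + fun j => if j ∈ S then x j else 0) ((pderiv i)^[m] g) =
          ∑ k, (x i ^ m / (m.factorial : ℂ) * eval x (A m k)) *
            eval y ((b k : partials f) : MvPolynomial (Fin n) ℂ) := by
        intro m _
        rw [hA m x y, Finset.mul_sum]
        exact Finset.sum_congr rfl fun k _ => by ring
      rw [Finset.sum_congr rfl h2, Finset.sum_comm]
      refine Finset.sum_congr rfl fun k _ => ?_
      rw [map_sum, Finset.sum_mul]
      refine Finset.sum_congr rfl fun m _ => ?_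
      rw [map_mul, map_mul, eval_C, map_pow, eval_X]
      ring
  obtain ⟨A, hA⟩ := key Finset.univ f hfmem
  refine ⟨fun k => if hk : (k : ℕ) < r' then A ⟨k, hk⟩ else 0,
    fun k => if hk : (k : ℕ) < r' then ((b ⟨k, hk⟩ : partials f) : MvPolynomial (Fin n) ℂ) else 0,
    fun x y => ?_⟩
  have h1 : x + y = y + fun j => if j ∈ (Finset.univ : Finset (Fin n)) then x j else 0 := by
    funext j
    simp [add_comm]
  rw [h1, hA x y]
  refine Fintype.sum_of_injective (Fin.castLE h) (Fin.castLE_injective h) _ _ ?_ ?_
  · intro k hk
    have h2 : ¬ (k : ℕ) < r' := fun h3 => hk ⟨⟨k, h3⟩, rfl⟩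
    beta_reduce
    rw [dif_neg h2, map_zero, zero_mul]
  · intro k
    have h2 : ((Fin.castLE h k : Fin r) : ℕ) < r' := k.2
    beta_reduce
    rw [dif_pos h2, dif_pos h2]
    rfl

end Pool.Agent.Helper7.PD
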