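import Mathlib

/-!
# PD-8: counting tuples of natural numbers with bounded product

Proof. Induction on `m`, for all `r`. `m = 0`: the set has at most one element, and it is empty if
`r = 0`; `r ^ 2 * 2 ^ 0 ≥ 1` if `r ≥ 1`. `m + 1`: sort by `a = y 0 + 1 ∈ {1, ..., r}`: the tail
`w` satisfies `a * ∏ (w k + 1) ≤ r`, i.e. `∏ (w k + 1) ≤ r / a`; moreover `w k < r / a`.
By the induction hypothesis the number is at
most `∑ a ∈ Icc 1 r, (r / a) ^ 2 * 2 ^ m`, and `∑ a ∈ Icc 1 r, (r / a) ^ 2 ≤ 2 r ^ 2` since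
`∑ 1 / a ^ 2 ≤ 2 - 1 / r` (induction: `1 / (r + 1) ^ 2 ≤ 1 / r - 1 / (r + 1)`; over the rationals,
`((r / a : ℕ) : ℚ) ≤ r / a`, `Nat.cast_div_le`).
To compare the sets with different bounds it is convenient to count the finite set
`(Fintype.piFinset fun _ => Finset.range R).filter (∏ (y k + 1) ≤ r)` for every `R` (then the number
of `y` with product `≤ r` is bounded independently of `R`).
-/

namespace Pool.Agent.Helper7.PD

private theorem sum_inv_sq (R : ℕ) :
    ∑ a ∈ Finset.range (R + 1), (1 : ℚ) / ((a : ℚ) + 1) ^ 2 ≤ 2 - 1 / ((R : ℚ) + 1) := by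
  induction R with
  | zero => norm_num
  | succ R ih =>
    rw [Finset.sum_range_succ]
    have h1 : (1 : ℚ) / (((R + 1 : ℕ) : ℚ) + 1) ^ 2 ≤
        1 / ((R : ℚ) + 1) - 1 / (((R + 1 : ℕ) : ℚ) + 1) := by
      push_cast
      have h2 : (0 : ℚ) < (R : ℚ) + 1 := by positivity
      have h3 : (0 : ℚ) < (R : ℚ) + 1 + 1 := by positivity
      rw [div_sub_div _ _ h2.ne' h3.ne', div_le_div_iff₀ (by positivity) (by positivity)]
      nlinarith
    linarith

private theorem sum_div_sq (r R : ℕ) :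
    ∑ a ∈ Finset.range R, (r / (a + 1)) ^ 2 ≤ 2 * r ^ 2 := by
  have h1 : (∑ a ∈ Finset.range R, (r / (a + 1)) ^ 2) ≤
      ∑ a ∈ Finset.range (R + 1), (r / (a + 1)) ^ 2 :=
    Finset.sum_le_sum_of_subset (Finset.range_mono (Nat.le_succ R))
  refine h1.trans ?_
  have h2 : ((∑ a ∈ Finset.range (R + 1), (r / (a + 1)) ^ 2 : ℕ) : ℚ) ≤
      ((2 * r ^ 2 : ℕ) : ℚ) := by
    push_cast
    calc ∑ a ∈ Finset.range (R + 1), (((r / (a + 1) : ℕ) : ℚ)) ^ 2 ≤
        ∑ a ∈ Finset.range (R + 1), (r : ℚ) ^ 2 * (1 / ((a : ℚ) + 1) ^ 2) := by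
          refine Finset.sum_le_sum fun a _ => ?_
          have h3 : ((r / (a + 1) : ℕ) : ℚ) ≤ (r : ℚ) / ((a : ℚ) + 1) := by
            have := Nat.cast_div_le (α := ℚ) (m := r) (n := a + 1)
            push_cast at this
            exact this
          calc ((r / (a + 1) : ℕ) : ℚ) ^ 2 ≤ ((r : ℚ) / ((a : ℚ) + 1)) ^ 2 :=
                pow_le_pow_left₀ (by positivity) h3 2
            _ = (r : ℚ) ^ 2 * (1 / ((a : ℚ) + 1) ^ 2) := by rw [div_pow]; ring
      _ = (r : ℚ) ^ 2 * ∑ a ∈ Finset.range (R + 1), (1 : ℚ) / ((a : ℚ) + 1) ^ 2 := by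
          rw [Finset.mul_sum]
      _ ≤ (r : ℚ) ^ 2 * 2 := by
          apply mul_le_mul_of_nonneg_left _ (by positivity)
          have h4 : (0 : ℚ) ≤ 1 / ((R : ℚ) + 1) := by positivity
          linarith [sum_inv_sq R]
      _ = 2 * (r : ℚ) ^ 2 := by ring
  exact_mod_cast h2

theorem card_trees (m r R : ℕ) :
    ((Fintype.piFinset fun _ : Fin m => Finset.range R).filter
      fun y => ∏ k, (y k + 1) ≤ r).card ≤ r ^ 2 * 2 ^ m := by
  induction m generalizing r with
  | zero =>
    by_cases hr : r = 0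
    · subst hr
      refine le_of_eq_of_le (Finset.card_eq_zero.2 ?_) (Nat.zero_le _)
      refine Finset.filter_false_of_mem fun y _ => ?_
      simp
    · refine (Finset.card_filter_le _ _).trans ?_
      rw [Fintype.card_piFinset]
      simp only [Finset.univ_eq_empty, Finset.prod_empty, pow_zero, mul_one]
      exact Nat.one_le_iff_ne_zero.2 (pow_ne_zero 2 hr)
  | succ m ih =>
    have h1 : ((Fintype.piFinset fun _ : Fin (m + 1) => Finset.range R).filter
        fun y => ∏ k, (y k + 1) ≤ r).card ≤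
        ((Finset.range R).sigma fun a => (Fintype.piFinset fun _ : Fin m => Finset.range R).filter
          fun w => ∏ k, (w k + 1) ≤ r / (a + 1)).card := by
      refine Finset.card_le_card_of_injOn
        (fun y : Fin (m + 1) → ℕ => (⟨y 0, fun k => y k.succ⟩ : Σ _ : ℕ, (Fin m → ℕ))) ?_ ?_
      · intro y hy
        have hy' := Finset.mem_coe.1 hy
        rw [Finset.mem_filter, Fintype.mem_piFinset] at hy'
        obtain ⟨hy1, hy2⟩ := hy'
        refine Finset.mem_coe.2 ?_
        rw [Finset.mem_sigma, Finset.mem_filter, Fintype.mem_piFinset]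
        refine ⟨hy1 0, fun k => hy1 k.succ, ?_⟩
        rw [Fin.prod_univ_succ] at hy2
        rw [Nat.le_div_iff_mul_le (Nat.succ_pos _), mul_comm]
        exact hy2
      · intro y _ y' _ h
        have h' : (⟨y 0, fun k => y k.succ⟩ : Σ _ : ℕ, (Fin m → ℕ)) =
            ⟨y' 0, fun k => y' k.succ⟩ := h
        have e1 : y 0 = y' 0 := congrArg Sigma.fst h'
        have e2 : (fun k : Fin m => y k.succ) = fun k : Fin m => y' k.succ := by
          have := congrArg (fun s : (Σ _ : ℕ, (Fin m → ℕ)) => s.2) h'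
          exact this
        funext k
        refine Fin.cases e1 (fun j => congrFun e2 j) k
    refine h1.trans ?_
    rw [Finset.card_sigma]
    calc ∑ a ∈ Finset.range R, ((Fintype.piFinset fun _ : Fin m => Finset.range R).filter
          fun w => ∏ k, (w k + 1) ≤ r / (a + 1)).card ≤
        ∑ a ∈ Finset.range R, (r / (a + 1)) ^ 2 * 2 ^ m := Finset.sum_le_sum fun a _ => ih _
      _ = (∑ a ∈ Finset.range R, (r / (a + 1)) ^ 2) * 2 ^ m := by rw [Finset.sum_mul]
      _ ≤ (2 * r ^ 2) * 2 ^ m := Nat.mul_le_mul_right _ (sum_div_sq r R)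
      _ = r ^ 2 * 2 ^ (m + 1) := by ring

end Pool.Agent.Helper7.PD
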