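import Mathlib
import Pool.Agent.Helper7.PD.Defs
import Pool.Agent.Helper7.PD.RankArray

/-!
# PD-3: the rank lemma for tied pairs of curves

Proof. For `k < r` put (in the polynomial ring `MvPolynomial (Fin p) ℂ`)
`a k = aeval (fun i => C (W i) + ∑ l, Polynomial.aeval (X l) (α l i)) (A k)` and
`b k = aeval (fun i => ∑ l, Polynomial.aeval (X l) (β l i)) (B k)`, where `A, B` come from `hf`. Then
for all `s t : Fin p → ℂ`:
`f (W + ∑ α l (s l) + ∑ β l (t l)) = ∑ k, eval s (a k) * eval t (b k)`.
Let `C σ τ = ∑ k, coeff σ' (a k) * coeff τ' (b k)` (`σ' = Finsupp.equivFunOnFinite.symm σ`), and let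
`K` be larger than all `degreeOf` of all `a k, b k`, so `Bdd K C`.
* `C ≠ 0`: otherwise `∑ k, eval s (a k) * eval t (b k) = ∑ σ, τ, C σ τ s ^ σ t ^ τ = 0` for all
  `s, t`, against `h0`. (Write `a k` as the sum over its support, all supports are contained in the
  finite set of exponents `< K`.)
* `Kill D K C l`: for fixed `v` the polynomial in the variables `s, t` without index `l`,
  `∑ σ, τ, C σ τ (s ^ σ) (t ^ τ)` with `s l = v ^ D`, `t l = v ^ D + v`, vanishes identically by
  `h1`, so all its coefficients vanish; the coefficient of `∏_{j ≠ l} s j ^ σ j t j ^ τ j` is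
  `∑ a, b, v ^ (D a) (v ^ D + v) ^ b C (update σ l a) (update τ l b)`. (One way: a function
  `(s, t) ↦ ∑ σ, τ in a finite set, c σ τ s ^ σ t ^ τ` which vanishes identically has all `c = 0`: it
  is the evaluation of the polynomial `∑ c σ τ X ^ (σ, τ)` in `MvPolynomial (Fin p ⊕ Fin p) ℂ`,
  `MvPolynomial.funext`. Apply it with `c σ τ = 0` unless `σ l = τ l = 0`.)
`rank_array` gives `s : (Fin p → Fin (D + 1)) → (Fin p → ℕ)` with `C (s κ)` linearly independent. All
`C σ` lie in the span of the `r` functions `fun τ => coeff τ' (b k)`, so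
`(D + 1) ^ p = Fintype.card (Fin p → Fin (D + 1)) ≤ r` (`LinearIndependent` family in a span of `r`
vectors: `linearIndependent_le_span'` or `finrank_span_le_card` + `finrank_range_le_card`).
-/

namespace Pool.Agent.Helper7.PD

open MvPolynomial

/-- the box of exponents -/
private noncomputable def bx (K p : ℕ) : Finset (Fin p → ℕ) :=
  Fintype.piFinset fun _ => Finset.range K

private theorem mem_bx {K p : ℕ} {σ : Fin p → ℕ} : σ ∈ bx K p ↔ ∀ l, σ l < K := by
  simp [bx]

private noncomputable def cf {p : ℕ} (q : MvPolynomial (Fin p) ℂ) (σ : Fin p → ℕ) : ℂ :=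
  coeff (Finsupp.equivFunOnFinite.symm σ) q

private theorem eval_box {K p : ℕ} (q : MvPolynomial (Fin p) ℂ)
    (hq : ∀ σ, cf q σ ≠ 0 → ∀ l, σ l < K) (s : Fin p → ℂ) :
    eval s q = ∑ σ ∈ bx K p, cf q σ * ∏ l, s l ^ σ l := by
  classical
  have h1 : ∑ σ ∈ bx K p, cf q σ * ∏ l, s l ^ σ l =
      ∑ d ∈ (bx K p).map Finsupp.equivFunOnFinite.symm.toEmbedding,
        coeff d q * ∏ l, s l ^ d l := by
    rw [Finset.sum_map]
    refine Finset.sum_congr rfl fun σ _ => ?_
    rfl
  rw [h1, eval_eq']
  refine Finset.sum_subset ?_ ?_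
  · intro d hd
    rw [Finset.mem_map]
    refine ⟨Finsupp.equivFunOnFinite d, ?_, by simp⟩
    rw [mem_bx]
    refine hq _ ?_
    rw [cf, Equiv.symm_apply_apply]
    exact mem_support_iff.1 hd
  · intro d _ hd
    rw [notMem_support_iff.1 hd, zero_mul]

private theorem box_zero {K p : ℕ} (c : (Fin p → ℕ) → ℂ)
    (h : ∀ s : Fin p → ℂ, ∑ σ ∈ bx K p, c σ * ∏ l, s l ^ σ l = 0) :
    ∀ σ ∈ bx K p, c σ = 0 := by
  classical
  let Q : MvPolynomial (Fin p) ℂ :=
    ∑ σ ∈ bx K p, monomial (Finsupp.equivFunOnFinite.symm σ) (c σ)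
  have hQ : Q = 0 := by
    apply MvPolynomial.funext
    intro s
    rw [map_zero, map_sum, ← h s]
    refine Finset.sum_congr rfl fun σ _ => ?_
    rw [eval_monomial, Finsupp.prod_fintype _ _ (fun i => pow_zero _)]
    rfl
  intro σ hσ
  have h2 : coeff (Finsupp.equivFunOnFinite.symm σ) Q = c σ := by
    rw [coeff_sum, Finset.sum_eq_single σ]
    · rw [coeff_monomial, if_pos rfl]
    · intro τ _ hτ
      rw [coeff_monomial, if_neg]
      exact fun h3 => hτ (Finsupp.equivFunOnFinite.symm.injective h3)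
    · exact fun h3 => absurd hσ h3
  rw [← h2, hQ, coeff_zero]

private theorem box_zero2 {K p : ℕ} (c : (Fin p → ℕ) → (Fin p → ℕ) → ℂ)
    (h : ∀ s t : Fin p → ℂ, ∑ σ ∈ bx K p, ∑ τ ∈ bx K p,
      c σ τ * ((∏ l, s l ^ σ l) * ∏ l, t l ^ τ l) = 0) :
    ∀ σ ∈ bx K p, ∀ τ ∈ bx K p, c σ τ = 0 := by
  intro σ hσ
  refine box_zero (c σ) fun t => ?_
  refine box_zero (fun σ => ∑ τ ∈ bx K p, c σ τ * ∏ l, t l ^ τ l) (fun s => ?_) σ hσ
  rw [← h s t]
  refine Finset.sum_congr rfl fun σ _ => ?_
  rw [Finset.sum_mul]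
  refine Finset.sum_congr rfl fun τ _ => ?_
  ring

private theorem sum_box {K p : ℕ} (l : Fin p) (g : (Fin p → ℕ) → ℂ) :
    ∑ σ ∈ bx K p, g σ = ∑ σ ∈ (bx K p).filter (fun σ => σ l = 0),
      ∑ a ∈ Finset.range K, g (Function.update σ l a) := by
  classical
  rw [← Finset.sum_product']
  refine Finset.sum_bij' (fun σ _ => (Function.update σ l 0, σ l))
    (fun x _ => Function.update x.1 l x.2) ?_ ?_ ?_ ?_ ?_
  · intro σ hσ
    rw [mem_bx] at hσ
    rw [Finset.mem_product, Finset.mem_filter, mem_bx, Finset.mem_range]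
    refine ⟨⟨fun j => ?_, by simp⟩, hσ l⟩
    show Function.update σ l 0 j < K
    by_cases hj : j = l
    · subst hj
      rw [Function.update_self]
      exact lt_of_le_of_lt (Nat.zero_le _) (hσ j)
    · rw [Function.update_of_ne hj]
      exact hσ j
  · intro x hx
    rw [Finset.mem_product, Finset.mem_filter, mem_bx, Finset.mem_range] at hx
    rw [mem_bx]
    intro j
    by_cases hj : j = l
    · subst hj
      rw [Function.update_self]
      exact hx.2
    · rw [Function.update_of_ne hj]
      exact hx.1.1 j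
  · intro σ _
    simp
  · intro x hx
    rw [Finset.mem_product, Finset.mem_filter] at hx
    refine Prod.ext ?_ ?_
    · show Function.update (Function.update x.1 l x.2) l 0 = x.1
      rw [Function.update_idem, ← hx.1.2, Function.update_eq_self]
    · show Function.update x.1 l x.2 l = x.2
      rw [Function.update_self]
  · intro σ _
    simp

private theorem prod_upd {p : ℕ} (l : Fin p) (s : Fin p → ℂ) (σ : Fin p → ℕ) (hσ : σ l = 0)
    (x : ℂ) (a : ℕ) :
    ∏ j, Function.update s l x j ^ Function.update σ l a j = x ^ a * ∏ j, s j ^ σ j := by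
  classical
  rw [← Finset.mul_prod_erase Finset.univ _ (Finset.mem_univ l),
    ← Finset.mul_prod_erase Finset.univ (fun j => s j ^ σ j) (Finset.mem_univ l),
    Function.update_self, Function.update_self, hσ, pow_zero, one_mul]
  congr 1
  refine Finset.prod_congr rfl fun j hj => ?_
  rw [Function.update_of_ne (Finset.ne_of_mem_erase hj),
    Function.update_of_ne (Finset.ne_of_mem_erase hj)]

private theorem aeval_eval {p : ℕ} (s : Fin p → ℂ) (q : MvPolynomial (Fin p) ℂ) :
    (MvPolynomial.aeval s : MvPolynomial (Fin p) ℂ →ₐ[ℂ] ℂ) q = eval s q := by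
  rw [← MvPolynomial.coe_aeval_eq_eval]
  rfl

private theorem eval_ai {p : ℕ} (q : Polynomial ℂ) (l : Fin p) (s : Fin p → ℂ) :
    eval s (Polynomial.aeval (X l : MvPolynomial (Fin p) ℂ) q) = q.eval (s l) := by
  have h := Polynomial.aeval_algHom_apply (MvPolynomial.aeval s : MvPolynomial (Fin p) ℂ →ₐ[ℂ] ℂ)
    (X l) q
  rw [MvPolynomial.aeval_X, Polynomial.coe_aeval_eq_eval] at h
  rw [h, aeval_eval]

private theorem eval_comp {n p : ℕ} (g : Fin n → MvPolynomial (Fin p) ℂ)
    (q : MvPolynomial (Fin n) ℂ) (s : Fin p → ℂ) :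
    eval s (aeval g q) = eval (fun i => eval s (g i)) q := by
  have h := DFunLike.congr_fun
    (comp_aeval g (MvPolynomial.aeval s : MvPolynomial (Fin p) ℂ →ₐ[ℂ] ℂ)) q
  rw [AlgHom.comp_apply, aeval_eval] at h
  rw [h]
  simp only [aeval_eval]

private theorem exp_lt {p K : ℕ} (q : MvPolynomial (Fin p) ℂ) (hK : q.totalDegree < K) :
    ∀ σ, cf q σ ≠ 0 → ∀ l, σ l < K := by
  intro σ hσ l
  have h1 : Finsupp.equivFunOnFinite.symm σ ∈ q.support := mem_support_iff.2 hσ
  have h2 := monomial_le_degreeOf l h1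
  have h3 := degreeOf_le_totalDegree q l
  have h4 : (Finsupp.equivFunOnFinite.symm σ) l = σ l := rfl
  rw [h4] at h2
  omega

theorem rank_tie {n r : ℕ} {f : MvPolynomial (Fin n) ℂ} (hf : RankLe r f) {D : ℕ} (hD : 2 ≤ D)
    {p : ℕ} (α β : Fin p → Fin n → Polynomial ℂ) (W : Fin n → ℂ)
    (h0 : ∃ s t : Fin p → ℂ, eval (fun i => W i + ∑ l, (α l i).eval (s l) +
      ∑ l, (β l i).eval (t l)) f ≠ 0)
    (h1 : ∀ (l : Fin p) (s t : Fin p → ℂ) (v : ℂ), s l = v ^ D → t l = v ^ D + v →
      eval (fun i => W i + ∑ l, (α l i).eval (s l) + ∑ l, (β l i).eval (t l)) f = 0) :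
    (D + 1) ^ p ≤ r := by
  classical
  obtain ⟨A, B, hAB⟩ := hf
  let ai : Fin n → MvPolynomial (Fin p) ℂ := fun i =>
    C (W i) + ∑ l, Polynomial.aeval (X l) (α l i)
  let bi : Fin n → MvPolynomial (Fin p) ℂ := fun i => ∑ l, Polynomial.aeval (X l) (β l i)
  have hai : ∀ s i, eval s (ai i) = W i + ∑ l, (α l i).eval (s l) := by
    intro s i
    simp only [ai, map_add, map_sum, eval_C, eval_ai]
  have hbi : ∀ t i, eval t (bi i) = ∑ l, (β l i).eval (t l) := by
    intro t i
    simp only [bi, map_sum, eval_ai]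
  obtain ⟨a, ha⟩ : ∃ a : Fin r → MvPolynomial (Fin p) ℂ, a = fun k => aeval ai (A k) := ⟨_, rfl⟩
  obtain ⟨b, hb⟩ : ∃ b : Fin r → MvPolynomial (Fin p) ℂ, b = fun k => aeval bi (B k) := ⟨_, rfl⟩
  have hval : ∀ s t : Fin p → ℂ, eval (fun i => W i + ∑ l, (α l i).eval (s l) +
      ∑ l, (β l i).eval (t l)) f = ∑ k, eval s (a k) * eval t (b k) := by
    intro s t
    have h2 := hAB (fun i => W i + ∑ l, (α l i).eval (s l)) (fun i => ∑ l, (β l i).eval (t l))
    have h3 : ((fun i => W i + ∑ l, (α l i).eval (s l)) + fun i => ∑ l, (β l i).eval (t l)) =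
        fun i => W i + ∑ l, (α l i).eval (s l) + ∑ l, (β l i).eval (t l) := rfl
    rw [h3] at h2
    rw [h2]
    refine Finset.sum_congr rfl fun k _ => ?_
    rw [ha, hb]
    simp only [eval_comp, hai, hbi]
  -- the array
  obtain ⟨K, hKa, hKb⟩ : ∃ K, (∀ k, (a k).totalDegree < K) ∧ ∀ k, (b k).totalDegree < K := by
    refine ⟨∑ k, (a k).totalDegree + ∑ k, (b k).totalDegree + 1, fun k => ?_, fun k => ?_⟩
    · have := Finset.single_le_sum (f := fun k => (a k).totalDegree)
        (fun _ _ => Nat.zero_le _) (Finset.mem_univ k)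
      omega
    · have := Finset.single_le_sum (f := fun k => (b k).totalDegree)
        (fun _ _ => Nat.zero_le _) (Finset.mem_univ k)
      omega
  obtain ⟨Cc, hCc⟩ : ∃ Cc : (Fin p → ℕ) → (Fin p → ℕ) → ℂ,
      Cc = fun σ τ => ∑ k, cf (a k) σ * cf (b k) τ := ⟨_, rfl⟩
  have hCval : ∀ s t : Fin p → ℂ, ∑ k, eval s (a k) * eval t (b k) =
      ∑ σ ∈ bx K p, ∑ τ ∈ bx K p, Cc σ τ * ((∏ l, s l ^ σ l) * ∏ l, t l ^ τ l) := by
    intro s t
    have h2 : ∀ k, eval s (a k) * eval t (b k) = ∑ σ ∈ bx K p, ∑ τ ∈ bx K p,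
        (cf (a k) σ * cf (b k) τ) * ((∏ l, s l ^ σ l) * ∏ l, t l ^ τ l) := by
      intro k
      rw [eval_box (a k) (exp_lt _ (hKa k)) s, eval_box (b k) (exp_lt _ (hKb k)) t,
        Finset.sum_mul_sum]
      refine Finset.sum_congr rfl fun σ _ => Finset.sum_congr rfl fun τ _ => ?_
      ring
    simp only [h2]
    rw [Finset.sum_comm]
    refine Finset.sum_congr rfl fun σ _ => ?_
    rw [Finset.sum_comm]
    refine Finset.sum_congr rfl fun τ _ => ?_
    rw [hCc, Finset.sum_mul]
  have hBdd : Bdd K Cc := by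
    intro σ τ hne l
    rw [hCc] at hne
    obtain ⟨k, -, hk⟩ := Finset.exists_ne_zero_of_sum_ne_zero hne
    exact ⟨exp_lt _ (hKa k) σ (left_ne_zero_of_mul hk) l,
      exp_lt _ (hKb k) τ (right_ne_zero_of_mul hk) l⟩
  have hne : ∃ σ τ, Cc σ τ ≠ 0 := by
    by_contra hcon
    push Not at hcon
    obtain ⟨s, t, hst⟩ := h0
    rw [hval, hCval] at hst
    refine hst (Finset.sum_eq_zero fun σ _ => Finset.sum_eq_zero fun τ _ => ?_)
    rw [hcon, zero_mul]
  have hkill : ∀ l, Kill D K Cc l := by
    intro l σ τ v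
    by_cases hin : (∀ j, j ≠ l → σ j < K) ∧ ∀ j, j ≠ l → τ j < K
    · by_cases hK0 : K = 0
      · subst hK0
        simp
      obtain ⟨c', hc'⟩ : ∃ c' : (Fin p → ℕ) → (Fin p → ℕ) → ℂ, c' = fun σ τ =>
          if σ l = 0 ∧ τ l = 0 then ∑ a ∈ Finset.range K, ∑ b ∈ Finset.range K,
            (v ^ (D * a) * (v ^ D + v) ^ b) *
              Cc (Function.update σ l a) (Function.update τ l b) else 0 := ⟨_, rfl⟩
      have hc0 : ∀ s t : Fin p → ℂ, ∑ σ ∈ bx K p, ∑ τ ∈ bx K p,
          c' σ τ * ((∏ l, s l ^ σ l) * ∏ l, t l ^ τ l) = 0 := by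
        intro s t
        have h2 := h1 l (Function.update s l (v ^ D)) (Function.update t l (v ^ D + v)) v
          (Function.update_self _ _ _) (Function.update_self _ _ _)
        rw [hval, hCval, sum_box l] at h2
        rw [← h2]
        have e1 : ∀ F : (Fin p → ℕ) → ℂ, (∀ σ, σ l ≠ 0 → F σ = 0) →
            ∑ σ ∈ bx K p, F σ = ∑ σ ∈ (bx K p).filter (fun σ => σ l = 0), F σ := by
          intro F hF
          rw [Finset.sum_filter]
          refine Finset.sum_congr rfl fun σ _ => ?_
          by_cases h3 : σ l = 0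
          · rw [if_pos h3]
          · rw [if_neg h3, hF σ h3]
        rw [e1]
        · refine Finset.sum_congr rfl fun σ hσ => ?_
          have hσl := (Finset.mem_filter.1 hσ).2
          rw [e1]
          · have e2 : ∀ a : ℕ, ∑ τ ∈ bx K p, Cc (Function.update σ l a) τ *
                ((∏ j, Function.update s l (v ^ D) j ^ Function.update σ l a j) *
                  ∏ j, Function.update t l (v ^ D + v) j ^ τ j) =
                ∑ τ ∈ (bx K p).filter (fun τ => τ l = 0), ∑ b ∈ Finset.range K,
                  Cc (Function.update σ l a) (Function.update τ l b) *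
                    (((v ^ D) ^ a * ∏ j, s j ^ σ j) *
                      ((v ^ D + v) ^ b * ∏ j, t j ^ τ j)) := by
              intro a
              rw [sum_box l]
              refine Finset.sum_congr rfl fun τ hτ => ?_
              have hτl := (Finset.mem_filter.1 hτ).2
              refine Finset.sum_congr rfl fun b _ => ?_
              rw [prod_upd l s σ hσl, prod_upd l t τ hτl]
            rw [Finset.sum_congr rfl fun a _ => e2 a, Finset.sum_comm]
            refine Finset.sum_congr rfl fun τ hτ => ?_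
            have hτl := (Finset.mem_filter.1 hτ).2
            rw [hc']
            simp only [hσl, hτl, and_self, if_true]
            rw [Finset.sum_mul]
            refine Finset.sum_congr rfl fun a _ => ?_
            rw [Finset.sum_mul]
            refine Finset.sum_congr rfl fun b _ => ?_
            rw [pow_mul]
            ring
          · intro τ hτ
            rw [hc']
            simp [hτ]
        · intro σ hσ
          refine Finset.sum_eq_zero fun τ _ => ?_
          rw [hc']
          simp [hσ]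
      have h3 := box_zero2 c' hc0 (Function.update σ l 0) (mem_bx.2 fun j => by
        by_cases hj : j = l
        · subst hj
          rw [Function.update_self]
          omega
        · rw [Function.update_of_ne hj]
          exact hin.1 j hj) (Function.update τ l 0) (mem_bx.2 fun j => by
        by_cases hj : j = l
        · subst hj
          rw [Function.update_self]
          omega
        · rw [Function.update_of_ne hj]
          exact hin.2 j hj)
      rw [hc'] at h3
      simp only [Function.update_self, and_self, if_true, Function.update_idem] at h3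
      exact h3
    · refine Finset.sum_eq_zero fun a _ => Finset.sum_eq_zero fun b _ => ?_
      have h4 : Cc (Function.update σ l a) (Function.update τ l b) = 0 := by
        by_contra hcon
        have h5 := hBdd _ _ hcon
        refine hin ⟨fun j hj => ?_, fun j hj => ?_⟩
        · have := (h5 j).1
          rwa [Function.update_of_ne hj] at this
        · have := (h5 j).2
          rwa [Function.update_of_ne hj] at this
      rw [h4, mul_zero]
  obtain ⟨s, hs⟩ := rank_array hD K p Cc hBdd hne hkill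
  let w : Fin r → ((Fin p → ℕ) → ℂ) := fun k τ => cf (b k) τ
  have hmem : ∀ σ, Cc σ ∈ Submodule.span ℂ (Set.range w) := by
    intro σ
    have h2 : Cc σ = ∑ k, cf (a k) σ • w k := by
      funext τ
      rw [hCc, Finset.sum_apply]
      rfl
    rw [h2]
    exact Submodule.sum_mem _ fun k _ =>
      Submodule.smul_mem _ _ (Submodule.subset_span ⟨k, rfl⟩)
  have hfin : Module.Finite ℂ (Submodule.span ℂ (Set.range w)) :=
    FiniteDimensional.span_of_finite ℂ (Set.finite_range w)
  let v' : (Fin p → Fin (D + 1)) → Submodule.span ℂ (Set.range w) :=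
    fun κ => ⟨Cc (s κ), hmem _⟩
  have hv' : LinearIndependent ℂ v' :=
    LinearIndependent.of_comp (Submodule.span ℂ (Set.range w)).subtype hs
  have h2 := hv'.fintype_card_le_finrank
  have h3 : Module.finrank ℂ (Submodule.span ℂ (Set.range w)) ≤ Fintype.card (Fin r) :=
    finrank_range_le_card w
  rw [Fintype.card_fin] at h3
  have h4 : Fintype.card (Fin p → Fin (D + 1)) = (D + 1) ^ p := by
    simp
  rw [h4] at h2
  exact h2.trans h3

end Pool.Agent.Helper7.PD
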