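import Mathlib
import Pool.Agent.Helper7.PD.RankTie

/-!
# PD-5: one level: pairing the curves

`Reach n Δ t M` is the set of all sums of one point on each curve of the multiset `M` of weights
(pointwise sum of sets).

Proof of `level`. Put `D = Δ t`. For a multiset `Q` of pairs of weights and a multiset `R` of weights
let `X (Q, R)` be the pointwise sum of `(Q.map fun q => Im n Δ (t + 1) (comb t q.1 q.2)).sum` and
`(R.map (Im n Δ t)).sum`. Consider all `(Q, R)` with `Q.map fst + Q.map snd + R = M` and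
`∃ x ∈ X (Q, R), f x ≠ 0`; `(0, M)` is one. Choose one with `Q.card` maximal
(`2 * Q.card ≤ M.card`).
*Claim `R.card ≤ 2 p + 1`.* Otherwise `R = Multiset.map u univ + Multiset.map u' univ + R'` for
`u, u' : Fin (p + 1) → (ℕ → ℕ)`. The point `x ∈ X (Q, R)` with `f x ≠ 0` is
`x = W + ∑ l, crv (u l) (s l) + ∑ l, crv (u' l) (t l)`, where `W` is in the sum of the `Q` part and of
the `R'` part. Apply `rank_tie` with `α l i = crv n Δ t (u l) Polynomial.X i`,
`β l i = crv n Δ t (u' l) Polynomial.X i`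
(`(crv n Δ t y X i).eval z = crv n Δ t y z i` by `crv_map` with `Polynomial.evalRingHom z`). Hypothesis
`h1`: if `s l = v ^ D`, `t l = v ^ D + v` then the point lies in `X (Q + {(u l, u' l)}, R - ...)`
(`Im_comb`), so `f` vanishes there by the maximality of `Q`. So `(D + 1) ^ (p + 1) ≤ r`,
contradiction to `hp`.
*The new multiset:* `M' = Q.map (fun q => comb t q.1 q.2) + R.map (fun y => comb t y (fun _ => 0))`;
`Im_single` shows that its reach is exactly `X (Q, R)`; its cardinality is `Q.card + R.card` and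
`M.card = 2 Q.card + R.card`, so `2 M'.card = M.card + R.card ≤ M.card + 2 p + 1`. The norms:
`nrm_comb`, `nrm_zero_weights`.
-/

namespace Pool.Agent.Helper7.PD

open MvPolynomial
open scoped Pointwise

/-- All sums of one point on each curve. -/
def Reach (n : ℕ) (Δ : ℕ → ℕ) (t : ℕ) (M : Multiset (ℕ → ℕ)) : Set (Fin n → ℂ) :=
  (M.map (Im n Δ t)).sum

private theorem exists_pairs {α : Type*} (m : ℕ) : ∀ R : Multiset α, 2 * m ≤ R.card →
    ∃ (u u' : Fin m → α) (R' : Multiset α),
      R = Multiset.map u Finset.univ.val + Multiset.map u' Finset.univ.val + R' := by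
  induction m with
  | zero =>
    intro R _
    exact ⟨Fin.elim0, Fin.elim0, R, by simp⟩
  | succ m ih =>
    intro R hR
    obtain ⟨a, ha⟩ := Multiset.card_pos_iff_exists_mem.1 (by omega : 0 < R.card)
    obtain ⟨R1, rfl⟩ := Multiset.exists_cons_of_mem ha
    rw [Multiset.card_cons] at hR
    obtain ⟨b, hb⟩ := Multiset.card_pos_iff_exists_mem.1 (by omega : 0 < R1.card)
    obtain ⟨R2, rfl⟩ := Multiset.exists_cons_of_mem hb
    rw [Multiset.card_cons] at hR
    obtain ⟨u, u', R', h⟩ := ih R2 (by omega)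
    refine ⟨Fin.cons a u, Fin.cons b u', R', ?_⟩
    have h1 : ∀ (c : α) (w : Fin m → α), Multiset.map (Fin.cons c w : Fin (m + 1) → α)
        Finset.univ.val = c ::ₘ Multiset.map w Finset.univ.val := by
      intro c w
      rw [Fin.univ_succ, Finset.cons_val, Finset.map_val, Multiset.map_cons, Multiset.map_map]
      rfl
    rw [h1, h1, h]
    simp only [← Multiset.singleton_add]
    abel

private theorem mem_sum_Im {n : ℕ} {Δ : ℕ → ℕ} {t : ℕ} {ι : Type*} (T : Finset ι)
    (u : ι → ℕ → ℕ) (s : ι → ℂ) :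
    ∑ l ∈ T, crv n Δ t (u l) (s l) ∈ ((Multiset.map u T.val).map (Im n Δ t)).sum := by
  rw [Multiset.map_map]
  change _ ∈ ∑ l ∈ T, (Im n Δ t ∘ u) l
  exact Set.finsetSum_mem_finsetSum T _ _ fun l _ => ⟨s l, rfl⟩

private theorem exists_of_mem_sum {n : ℕ} {Δ : ℕ → ℕ} {t : ℕ} {ι : Type*} [Fintype ι]
    (u : ι → ℕ → ℕ) {x : Fin n → ℂ}
    (hx : x ∈ ((Multiset.map u (Finset.univ : Finset ι).val).map (Im n Δ t)).sum) :
    ∃ s : ι → ℂ, x = ∑ l, crv n Δ t (u l) (s l) := by
  rw [Multiset.map_map] at hx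
  change x ∈ ∑ l, (Im n Δ t ∘ u) l at hx
  rw [Set.mem_fintype_sum] at hx
  obtain ⟨g, hg, rfl⟩ := hx
  choose s hs using hg
  exact ⟨s, Finset.sum_congr rfl fun l _ => (hs l).symm⟩

/-- sums of points of combined curves and of single curves -/
private def XX (n : ℕ) (Δ : ℕ → ℕ) (t : ℕ) (Q : Multiset ((ℕ → ℕ) × (ℕ → ℕ)))
    (R : Multiset (ℕ → ℕ)) : Set (Fin n → ℂ) :=
  (Q.map fun q => Im n Δ (t + 1) (comb t q.1 q.2)).sum + (R.map (Im n Δ t)).sum

private theorem eval_crv (n : ℕ) (Δ : ℕ → ℕ) (t : ℕ) (y : ℕ → ℕ) (z : ℂ) (i : Fin n) :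
    (crv n Δ t y (Polynomial.X : Polynomial ℂ) i).eval z = crv n Δ t y z i := by
  have h := crv_map n Δ (Polynomial.evalRingHom z) t y Polynomial.X i
  simpa using h

theorem level {n r : ℕ} {f : MvPolynomial (Fin n) ℂ} (hf : RankLe r f) {Δ : ℕ → ℕ} {t p : ℕ}
    (hD : 2 ≤ Δ t) (hp : r < (Δ t + 1) ^ (p + 1)) (M : Multiset (ℕ → ℕ))
    (h : ∃ x ∈ Reach n Δ t M, eval x f ≠ 0) :
    ∃ M' : Multiset (ℕ → ℕ), 2 * M'.card ≤ M.card + 2 * p + 1 ∧
      (M'.map (nrm (t + 1))).prod = (M.map (nrm t)).prod ∧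
      ∃ x ∈ Reach n Δ (t + 1) M', eval x f ≠ 0 := by
  have hΔ0 : 0 < Δ t := by omega
  obtain ⟨P, hP⟩ : ∃ P : ℕ → Prop, ∀ m, P m ↔ ∃ (Q : Multiset ((ℕ → ℕ) × (ℕ → ℕ)))
      (R : Multiset (ℕ → ℕ)), Q.card = m ∧ Q.map Prod.fst + Q.map Prod.snd + R = M ∧
        ∃ x ∈ XX n Δ t Q R, eval x f ≠ 0 := ⟨_, fun _ => Iff.rfl⟩
  classical
  have hP0 : P 0 := by
    rw [hP]
    refine ⟨0, M, rfl, by simp, ?_⟩
    obtain ⟨x, hx, hfx⟩ := h
    refine ⟨x, ?_, hfx⟩
    unfold XX
    rw [Multiset.map_zero, Multiset.sum_zero, zero_add]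
    exact hx
  have hmax : ∃ m, P m ∧ ∀ m', m < m' → ¬ P m' := by
    refine ⟨Nat.findGreatest P M.card, Nat.findGreatest_spec (Nat.zero_le _) hP0, ?_⟩
    intro m' hm' hPm'
    have hle : m' ≤ M.card := by
      obtain ⟨Q, R, h1, h2, _⟩ := (hP m').1 hPm'
      rw [← h2, Multiset.card_add, Multiset.card_add, Multiset.card_map]
      omega
    exact Nat.findGreatest_is_greatest hm' hle hPm'
  obtain ⟨m, hPm, hmax⟩ := hmax
  obtain ⟨Q, R, hQm, hM, x, hx, hfx⟩ := (hP m).1 hPm
  have hRcard : R.card ≤ 2 * p + 1 := by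
    by_contra hcon
    obtain ⟨u, u', R', hR⟩ := exists_pairs (p + 1) R (by omega)
    unfold XX at hx
    obtain ⟨q, hq, ρ, hρ, hqρ⟩ := Set.mem_add.1 hx
    rw [hR, Multiset.map_add, Multiset.map_add, Multiset.sum_add, Multiset.sum_add] at hρ
    obtain ⟨ab, hab, c, hc, habc⟩ := Set.mem_add.1 hρ
    obtain ⟨a, ha, b, hb, hab2⟩ := Set.mem_add.1 hab
    obtain ⟨s, hs⟩ := exists_of_mem_sum u ha
    obtain ⟨s', hs'⟩ := exists_of_mem_sum u' hb
    have key := rank_tie hf hD (fun l i => crv n Δ t (u l) (Polynomial.X : Polynomial ℂ) i)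
      (fun l i => crv n Δ t (u' l) (Polynomial.X : Polynomial ℂ) i) (q + c)
      (by
        refine ⟨s, s', ?_⟩
        simp only [eval_crv]
        have : (fun i => (q + c) i + ∑ l, crv n Δ t (u l) (s l) i +
            ∑ l, crv n Δ t (u' l) (s' l) i) = x := by
          funext i
          rw [← hqρ, ← habc, ← hab2, hs, hs']
          simp only [Pi.add_apply, Finset.sum_apply]
          ring
        rw [this]
        exact hfx)
      (by
        intro l s₁ s₂ v h1 h2
        by_contra hne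
        apply hmax (m + 1) (by omega)
        rw [hP]
        refine ⟨(u l, u' l) ::ₘ Q, Multiset.map u (Finset.univ.erase l).val +
          Multiset.map u' (Finset.univ.erase l).val + R', by rw [Multiset.card_cons, hQm], ?_, ?_⟩
        · rw [← hM, hR]
          have h3 : ∀ w : Fin (p + 1) → ℕ → ℕ, Multiset.map w Finset.univ.val =
              w l ::ₘ Multiset.map w (Finset.univ.erase l).val := by
            intro w
            rw [← Multiset.map_cons, Finset.erase_val, Multiset.cons_erase (Finset.mem_univ l)]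
          rw [h3 u, h3 u', Multiset.map_cons, Multiset.map_cons]
          simp only [← Multiset.singleton_add]
          abel
        · refine ⟨_, ?_, hne⟩
          unfold XX
          rw [Multiset.map_cons, Multiset.sum_cons, Multiset.map_add, Multiset.map_add,
            Multiset.sum_add, Multiset.sum_add]
          refine Set.mem_add.2 ⟨(crv n Δ t (u l) (s₁ l) + crv n Δ t (u' l) (s₂ l)) + q,
            Set.add_mem_add ?_ hq,
            (∑ j ∈ Finset.univ.erase l, crv n Δ t (u j) (s₁ j) +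
              ∑ j ∈ Finset.univ.erase l, crv n Δ t (u' j) (s₂ j)) + c,
            Set.add_mem_add (Set.add_mem_add (mem_sum_Im _ _ _) (mem_sum_Im _ _ _)) hc, ?_⟩
          · rw [h1, h2]
            exact Im_comb t (u l) (u' l) v
          · funext i
            simp only [eval_crv, Pi.add_apply, Finset.sum_apply]
            rw [← Finset.add_sum_erase Finset.univ (fun l => crv n Δ t (u l) (s₁ l) i)
              (Finset.mem_univ l), ← Finset.add_sum_erase Finset.univ
              (fun l => crv n Δ t (u' l) (s₂ l) i) (Finset.mem_univ l)]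
            ring)
    omega
  refine ⟨Q.map (fun q => comb t q.1 q.2) + R.map (fun y => comb t y (fun _ => 0)), ?_, ?_, ?_⟩
  · have h1 : M.card = Q.card + Q.card + R.card := by
      rw [← hM, Multiset.card_add, Multiset.card_add, Multiset.card_map, Multiset.card_map]
    rw [Multiset.card_add, Multiset.card_map, Multiset.card_map]
    omega
  · rw [← hM]
    simp only [Multiset.map_add, Multiset.prod_add, Multiset.map_map, Function.comp_def, nrm_comb,
      nrm_zero_weights, mul_one, Multiset.prod_map_mul]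
  · refine ⟨x, ?_, hfx⟩
    unfold Reach
    rw [Multiset.map_add, Multiset.sum_add, Multiset.map_map, Multiset.map_map]
    have h1 : (Im n Δ (t + 1) ∘ fun y => comb t y (fun _ => 0)) = Im n Δ t := by
      funext y
      exact Im_single t hΔ0 y
    rw [h1]
    exact hx

end Pool.Agent.Helper7.PD
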