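import Mathlib
import Pool.Agent.Helper7.PD.Defs

/-!
# PD-4: the start: a lex minimal combination of moment vectors

Write `F y z = eval (fun i => ∑ j, (y j : ℂ) * z j ^ (i : ℕ)) f` for `y : Fin n → ℕ`, `z : Fin n → ℂ`.

(1) *Some `y, z` with `F y z ≠ 0`.* Take `z j = j`. The vectors `(j ^ i)_i` are a basis
(`Matrix.det_vandermonde_ne_zero_iff`), so `y ↦ f (∑ j, y j (j ^ i)_i)` is a nonzero polynomial in
`y` (substitute an invertible linear change: if `x` is a point with `f x ≠ 0` then `x = ∑ y j (j^i)`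
for a complex `y`), hence nonzero at a point of `ℕ ^ n` (`MvPolynomial.funext_set` with the infinite
sets `Set.range ((↑) : ℕ → ℂ)`).
(2) *Minimality.* The lexicographic order on `Fin n → ℕ` is well founded (`Pi.Lex`; `Finite` index
type); let `y` be lex minimal with `∃ z, F y z ≠ 0`, and fix such a `z`.
(3) *The matrix.* Index type `ι = (j : Fin n) → Fin (y j + 1)`, a finite type with `∏ (y j + 1)`
elements. `M e e' = F (fun j => e j + y j - e' j) z` (natural subtraction is exact because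
`e' j ≤ y j`). `M e e = F y z ≠ 0`. If `e` is lex smaller than `e'` then `e + y - e'` is lex smaller
than `y`, so `M e e' = 0` by minimality. By `hf`, with `U e i = ∑ j, e j * z j ^ i` and
`V e' i = ∑ j, (y j - e' j) * z j ^ i`: `M e e' = ∑ k, eval (U e) (A k) * eval (V e') (B k)`, so `M` is
a product of an `ι × Fin r` and a `Fin r × ι` matrix.
(4) `M` is triangular for the linear order `Lex` on `ι` with nonzero diagonal, so its determinant is
nonzero (`Matrix.det_of_lowerTriangular`/`det_of_upperTriangular`) and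
`card ι = rank M ≤ r` (`Matrix.rank_of_isUnit`, `Matrix.rank_mul_le_left`,
`Matrix.rank_le_width`/`rank_le_card_width`).
-/

namespace Pool.Agent.Helper7.PD

open MvPolynomial

/-- the point with weights `y` and nodes `z` -/
private noncomputable def pt {n : ℕ} (y : Fin n → ℕ) (z : Fin n → ℂ) : Fin n → ℂ :=
  fun i : Fin n => ∑ j, (y j : ℂ) * z j ^ (i : ℕ)

private theorem pt_add {n : ℕ} (y y' : Fin n → ℕ) (z : Fin n → ℂ) :
    pt (fun j => y j + y' j) z = pt y z + pt y' z := by
  funext i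
  rw [Pi.add_apply, pt, pt, pt, ← Finset.sum_add_distrib]
  refine Finset.sum_congr rfl fun j _ => ?_
  push_cast
  ring

/-- some weights and nodes -/
private theorem exists_start {n : ℕ} {f : MvPolynomial (Fin n) ℂ} (h0 : f ≠ 0) :
    ∃ y : Fin n → ℕ, ∃ z : Fin n → ℂ, eval (pt y z) f ≠ 0 := by
  by_contra hcon
  push Not at hcon
  set z : Fin n → ℂ := fun j => ((j : ℕ) : ℂ) with hz
  set g : MvPolynomial (Fin n) ℂ :=
    aeval (fun i : Fin n => ∑ j, C (z j ^ (i : ℕ)) * (X j : MvPolynomial (Fin n) ℂ)) f with hg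
  have heval : ∀ y : Fin n → ℂ,
      eval y g = eval (fun i : Fin n => ∑ j, y j * z j ^ (i : ℕ)) f := by
    intro y
    have hh : (eval y).comp ((aeval (fun i : Fin n => ∑ j, C (z j ^ (i : ℕ)) *
        (X j : MvPolynomial (Fin n) ℂ))) : MvPolynomial (Fin n) ℂ →ₐ[ℂ] MvPolynomial (Fin n) ℂ).toRingHom
        = eval (fun i : Fin n => ∑ j, y j * z j ^ (i : ℕ)) := by
      refine MvPolynomial.ringHom_ext ?_ ?_
      · intro a
        simp
      · intro i
        simp [mul_comm]
    exact RingHom.congr_fun hh f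
  have hg0 : g = 0 := by
    refine funext_set (fun _ => Set.range ((↑) : ℕ → ℂ)) (fun _ =>
      Set.infinite_range_of_injective Nat.cast_injective) ?_
    intro x hx
    rw [Set.mem_univ_pi] at hx
    choose y hy using hx
    rw [heval, map_zero]
    have h5 : (fun i : Fin n => ∑ j, x j * z j ^ (i : ℕ)) = pt y z := by
      funext i
      refine Finset.sum_congr rfl fun j _ => ?_
      rw [← hy j]
    rw [h5]
    exact hcon y z
  apply h0
  refine MvPolynomial.funext fun x => ?_
  rw [map_zero]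
  have hdet : (Matrix.vandermonde z).det ≠ 0 := by
    rw [Matrix.det_vandermonde_ne_zero_iff]
    intro a b hab
    have hab' : ((a : ℕ) : ℂ) = ((b : ℕ) : ℂ) := hab
    exact Fin.ext (by exact_mod_cast hab')
  have hu : IsUnit (Matrix.vandermonde z).det := isUnit_iff_ne_zero.2 hdet
  have hx : (fun i : Fin n => ∑ j, (Matrix.vecMul x (Matrix.vandermonde z)⁻¹) j * z j ^ (i : ℕ))
      = x := by
    have h1 : Matrix.vecMul (Matrix.vecMul x (Matrix.vandermonde z)⁻¹) (Matrix.vandermonde z)
        = x := by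
      rw [Matrix.vecMul_vecMul, Matrix.nonsing_inv_mul _ hu, Matrix.vecMul_one]
    conv_rhs => rw [← h1]
    rfl
  rw [← hx, ← heval, hg0, map_zero]

/-- a lower triangular matrix with nonzero diagonal that factors through `Fin r` -/
private theorem card_le_of_tri {ι : Type} [Fintype ι] [LinearOrder ι] {r : ℕ} (M : Matrix ι ι ℂ)
    (U : Matrix ι (Fin r) ℂ) (W : Matrix (Fin r) ι ℂ) (hM : M = U * W)
    (hd : ∀ e, M e e ≠ 0) (ht : ∀ e e', e < e' → M e e' = 0) : Fintype.card ι ≤ r := by
  have hdet : M.det = ∏ i, M i i := by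
    refine Matrix.det_of_isLowerTriangular M ?_
    intro i j hij
    exact ht i j hij
  have hne : M.det ≠ 0 := by
    rw [hdet]
    exact Finset.prod_ne_zero_iff.2 fun i _ => hd i
  have hu : IsUnit M := (Matrix.isUnit_iff_isUnit_det M).2 (isUnit_iff_ne_zero.2 hne)
  rw [← Matrix.rank_of_isUnit M hu, hM]
  refine le_trans (Matrix.rank_mul_le_left U W) ?_
  have := Matrix.rank_le_card_width U
  rwa [Fintype.card_fin] at this

theorem start {n r : ℕ} {f : MvPolynomial (Fin n) ℂ} (hf : RankLe r f) (h0 : f ≠ 0) :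
    ∃ y : Fin n → ℕ, ∏ j, (y j + 1) ≤ r ∧
      ∃ z : Fin n → ℂ, eval (fun i : Fin n => ∑ j, (y j : ℂ) * z j ^ (i : ℕ)) f ≠ 0 := by
  classical
  obtain ⟨y0, z0, h00⟩ := exists_start h0
  let P : Lex (Fin n → ℕ) → Prop := fun y => ∃ z : Fin n → ℂ, eval (pt (ofLex y) z) f ≠ 0
  have hne : {y : Lex (Fin n → ℕ) | P y}.Nonempty := ⟨toLex y0, z0, h00⟩
  have hwf : WellFounded ((· < ·) : Lex (Fin n → ℕ) → Lex (Fin n → ℕ) → Prop) :=
    (inferInstance : WellFoundedLT (Lex (Fin n → ℕ))).wf
  obtain ⟨yl, ⟨z, hz⟩, hmin⟩ := hwf.has_min {y : Lex (Fin n → ℕ) | P y} hne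
  set y : Fin n → ℕ := ofLex yl with hy
  refine ⟨y, ?_, z, hz⟩
  have hmin' : ∀ y' : Fin n → ℕ, toLex y' < toLex y → eval (pt y' z) f = 0 := by
    intro y' hlt
    by_contra hne'
    exact hmin (toLex y') ⟨z, hne'⟩ hlt
  obtain ⟨A, B, hAB⟩ := hf
  let ι := Lex (∀ j : Fin n, Fin (y j + 1))
  let _ : LinearOrder ι := Pi.Lex.linearOrder
  let M : Matrix ι ι ℂ := fun e e' =>
    eval (pt (fun j => ((ofLex e j : Fin (y j + 1)) : ℕ) + (y j - (ofLex e' j : Fin (y j + 1)))) z) f
  let U : Matrix ι (Fin r) ℂ := fun e k => eval (pt (fun j => ((ofLex e j : Fin (y j + 1)) : ℕ)) z) (A k)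
  let W : Matrix (Fin r) ι ℂ := fun k e' =>
    eval (pt (fun j => y j - ((ofLex e' j : Fin (y j + 1)) : ℕ)) z) (B k)
  have hMUW : M = U * W := by
    ext e e'
    rw [Matrix.mul_apply]
    change eval (pt (fun j => ((ofLex e j : Fin (y j + 1)) : ℕ) + (y j - (ofLex e' j : Fin (y j + 1)))) z) f
      = _
    rw [pt_add (fun j => ((ofLex e j : Fin (y j + 1)) : ℕ))
      (fun j => y j - ((ofLex e' j : Fin (y j + 1)) : ℕ)) z, hAB]
  have hcard := card_le_of_tri M U W hMUW ?_ ?_
  · have h1 : Fintype.card ι = ∏ j, (y j + 1) := by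
      change Fintype.card (Lex (∀ j : Fin n, Fin (y j + 1))) = _
      rw [Fintype.card_lex, Fintype.card_pi]
      exact Finset.prod_congr rfl fun j _ => Fintype.card_fin _
    rw [← h1]
    exact hcard
  · intro e
    change eval (pt (fun j => ((ofLex e j : Fin (y j + 1)) : ℕ) + (y j - (ofLex e j : Fin (y j + 1)))) z) f ≠ 0
    have h2 : (fun j => ((ofLex e j : Fin (y j + 1)) : ℕ) + (y j - (ofLex e j : Fin (y j + 1)))) = y := by
      funext j
      have := (ofLex e j).2
      omega
    rw [h2]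
    exact hz
  · intro e e' hlt
    refine hmin' _ ?_
    obtain ⟨i, hi1, hi2⟩ := hlt
    refine ⟨i, ?_, ?_⟩
    · intro j hj
      have h3 : e j = e' j := hi1 j hj
      change ((e j : Fin (y j + 1)) : ℕ) + (y j - (e' j : Fin (y j + 1))) = y j
      rw [h3]
      have := (e' j).2
      omega
    · change ((e i : Fin (y i + 1)) : ℕ) + (y i - (e' i : Fin (y i + 1))) < y i
      have h4 : ((e i : Fin (y i + 1)) : ℕ) < (e' i : Fin (y i + 1)) := hi2
      have := (e' i).2
      omega

end Pool.Agent.Helper7.PD
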