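import Mathlib
import Pool.Agent.Helper7.PD.Start
import Pool.Agent.Helper7.PD.Level

/-!
# PD-6: iterating the levels

Proof. `start` gives `y : Fin n → ℕ` and `z`. Let `M₀` be the multiset of the constant functions
`fun _ => y j` over the `j` with `y j ≠ 0`
(`((Finset.univ.filter fun j => y j ≠ 0).val.map fun j => fun _ => y j)`). Then the point
`∑ j, y j (z j ^ i)_i` lies in `Reach n Δ 0 M₀` (the curve of level `0` is `z ↦ y 0 * z ^ i`; the terms
with `y j = 0` vanish), `((M₀.map (nrm 0)).prod = ∏ (y j + 1) ≤ r` (`nrm 0 y = y 0 + 1`), and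
`2 ^ M₀.card ≤ ∏ (y j + 1) ≤ r`, so `M₀.card ≤ Nat.log 2 r ≤ β 0`.
Induction on `t ≤ T`: there is a multiset `M` with `M.card ≤ β t`, `(M.map (nrm t)).prod ≤ r` and
`∃ x ∈ Reach n Δ t M, eval x f ≠ 0`. Step: `level` gives `M'` with
`2 M'.card ≤ β t + 2 P t + 1 ≤ 2 β (t + 1) + 1`, so `M'.card ≤ β (t + 1)`.
At `t = T`: `M.card ≤ 1`. If `M = 0` then the point is `0 = crv n Δ T (fun _ => 0) 0`
(`crv_zero_weights`), norm `1` (and `1 ≤ r` since the product of the empty multiset is `1 ≤ r`). If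
`M = {y}`, then `Reach` is `Im n Δ T y`; replace `y` by `fun k => if k < 2 ^ T then y k else 0`
(`crv_congr`, `nrm` only uses `k < 2 ^ T`).
-/

namespace Pool.Agent.Helper7.PD

open MvPolynomial

section reach

open scoped Pointwise

variable {n t : ℕ} {Δ : ℕ → ℕ}

private theorem reach_zero {x : Fin n → ℂ} (hx : x ∈ Reach n Δ t 0) : x = 0 := by
  unfold Reach at hx
  rw [Multiset.map_zero, Multiset.sum_zero] at hx
  exact Set.mem_zero.1 hx

private theorem reach_single {x : Fin n → ℂ} {y : ℕ → ℕ} (hx : x ∈ Reach n Δ t {y}) :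
    x ∈ Im n Δ t y := by
  unfold Reach at hx
  rwa [Multiset.map_singleton, Multiset.sum_singleton] at hx

private theorem reach_sum {ι : Type*} (w : ι → ℕ → ℕ) (S : Finset ι) (g : ι → Fin n → ℂ)
    (hg : ∀ j ∈ S, g j ∈ Im n Δ t (w j)) : ∑ j ∈ S, g j ∈ Reach n Δ t (S.val.map w) := by
  unfold Reach
  rw [Multiset.map_map]
  change _ ∈ ∑ j ∈ S, Im n Δ t (w j)
  exact Set.finsetSum_mem_finsetSum _ _ _ hg

end reach

theorem iterate {n r : ℕ} {f : MvPolynomial (Fin n) ℂ} (hf : RankLe r f) (h0 : f ≠ 0)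
    (T : ℕ) (Δ P β : ℕ → ℕ) (hΔ : ∀ t < T, 2 ≤ Δ t) (hP : ∀ t < T, r < (Δ t + 1) ^ (P t + 1))
    (hβ : ∀ t < T, β t + 2 * P t ≤ 2 * β (t + 1)) (hT : β T ≤ 1) (hL : Nat.log 2 r ≤ β 0) :
    ∃ y : ℕ → ℕ, (∀ k, 2 ^ T ≤ k → y k = 0) ∧ nrm T y ≤ r ∧
      ∃ z : ℂ, eval (crv n Δ T y z) f ≠ 0 := by
  classical
  -- the start
  have hstart : ∃ M : Multiset (ℕ → ℕ), M.card ≤ β 0 ∧ (M.map (nrm 0)).prod ≤ r ∧
      ∃ x ∈ Reach n Δ 0 M, eval x f ≠ 0 := by
    obtain ⟨y, hy, z, hz⟩ := start hf h0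
    set S : Finset (Fin n) := Finset.univ.filter fun j => y j ≠ 0 with hS
    have hprod : ∏ j ∈ S, (y j + 1) = ∏ j, (y j + 1) := by
      refine Finset.prod_subset (Finset.filter_subset _ _) fun j _ hj => ?_
      have h1 : y j = 0 := by
        by_contra h2
        exact hj (Finset.mem_filter.2 ⟨Finset.mem_univ _, h2⟩)
      rw [h1, Nat.zero_add]
    refine ⟨S.val.map fun j => (fun _ => y j : ℕ → ℕ), ?_, ?_, ?_⟩
    · rw [Multiset.card_map]
      refine le_trans ?_ hL
      apply Nat.le_log_of_pow_le (by norm_num)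
      refine le_trans ?_ (hprod.le.trans hy)
      change 2 ^ S.card ≤ _
      rw [← Finset.prod_const]
      refine Finset.prod_le_prod' fun j hj => ?_
      have h1 := (Finset.mem_filter.1 hj).2
      omega
    · rw [Multiset.map_map]
      have h1 : (S.val.map (nrm 0 ∘ fun j => (fun _ => y j : ℕ → ℕ))).prod =
          ∏ j ∈ S, (y j + 1) := by
        change ∏ j ∈ S, nrm 0 (fun _ => y j) = _
        refine Finset.prod_congr rfl fun j _ => ?_
        simp [nrm]
      rw [h1, hprod]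
      exact hy
    · refine ⟨∑ j ∈ S, crv n Δ 0 (fun _ => y j) (z j), ?_, ?_⟩
      · exact reach_sum (fun j => (fun _ => y j : ℕ → ℕ)) S _ fun j _ => ⟨z j, rfl⟩
      · have h1 : (∑ j ∈ S, crv n Δ 0 (fun _ => y j) (z j)) =
            fun i : Fin n => ∑ j, (y j : ℂ) * z j ^ (i : ℕ) := by
          funext i
          rw [Finset.sum_apply]
          refine Finset.sum_subset (Finset.filter_subset _ _) fun j _ hj => ?_
          have h1 : y j = 0 := by
            by_contra h2
            exact hj (Finset.mem_filter.2 ⟨Finset.mem_univ _, h2⟩)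
          rw [crv_zero, h1, Nat.cast_zero, zero_mul]
        rw [h1]
        exact hz
  -- the induction
  have hind : ∀ t ≤ T, ∃ M : Multiset (ℕ → ℕ), M.card ≤ β t ∧ (M.map (nrm t)).prod ≤ r ∧
      ∃ x ∈ Reach n Δ t M, eval x f ≠ 0 := by
    intro t
    induction t with
    | zero => exact fun _ => hstart
    | succ t ih =>
      intro ht
      obtain ⟨M, hM1, hM2, hM3⟩ := ih (by omega)
      obtain ⟨M', h1, h2, h3⟩ := level hf (hΔ t (by omega)) (hP t (by omega)) M hM3
      refine ⟨M', ?_, by rw [h2]; exact hM2, h3⟩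
      have := hβ t (by omega)
      omega
  obtain ⟨M, hM1, hM2, x, hx, hxf⟩ := hind T le_rfl
  have hcard : M.card = 0 ∨ M.card = 1 := by omega
  rcases hcard with hc | hc
  · rw [Multiset.card_eq_zero] at hc
    subst hc
    refine ⟨fun _ => 0, fun _ _ => rfl, ?_, 0, ?_⟩
    · rw [nrm_zero_weights]
      simpa using hM2
    · rw [crv_zero_weights n Δ T _ _ fun _ => rfl]
      rw [reach_zero hx] at hxf
      exact hxf
  · obtain ⟨y, rfl⟩ := Multiset.card_eq_one.1 hc
    obtain ⟨z, rfl⟩ := reach_single hx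
    rw [Multiset.map_singleton, Multiset.prod_singleton] at hM2
    refine ⟨fun k => if k < 2 ^ T then y k else 0, fun k hk => if_neg (by omega), ?_, z, ?_⟩
    · have h1 : nrm T (fun k => if k < 2 ^ T then y k else 0) = nrm T y := by
        unfold nrm
        refine Finset.prod_congr rfl fun k hk => ?_
        simp only [if_pos (Finset.mem_range.1 hk)]
      rw [h1]
      exact hM2
    · rw [crv_congr n Δ T (fun k => if k < 2 ^ T then y k else 0) y z fun k hk => if_pos hk]
      exact hxf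

end Pool.Agent.Helper7.PD
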