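import Mathlib
import Pool.Agent.Helper7.PD.Defs

/-!
# PD-7: from a complex parameter to a small natural parameter; bounds for the coordinates

`nat_point`: `g = aeval (crv n Δ T y (X : ℂ[X])) f : ℂ[X]` satisfies `g.eval z = eval (crv n Δ T y z) f`
(`crv_map` with `Polynomial.evalRingHom z`), so `g ≠ 0`. Its degree is at most
`f.totalDegree * (n - 1) * ∏ t < T, Δ t`: by induction on `T`, for every polynomial `q : ℂ[X]`, each
coordinate of `crv n Δ T y q` has degree at most `(n - 1) * (∏ t < T, Δ t) * q.natDegree`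
(`q ^ Δ` and `q ^ Δ + q` have degree `≤ Δ * q.natDegree` as `Δ ≥ 1`), and `aeval` of a polynomial of
total degree `≤ d` at polynomials of degree `≤ e` has degree `≤ d e`
(`MvPolynomial.aeval_def`/`eval₂`, sum over the support;
`MvPolynomial.le_totalDegree`, `Polynomial.natDegree_prod_le`,
`Polynomial.natDegree_sum_le_of_forall_le`). A nonzero polynomial of degree `≤ U` has a
non-root among `0, 1, ..., U` (`Polynomial.card_roots'` / `Polynomial.eq_zero_of_natDegree_lt_card_of_eval_eq_zero`).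
Cast: `((crv n Δ T y (u : ℕ) i : ℕ) : ℂ) = crv n Δ T y (u : ℂ) i` (`crv_map` with `Nat.castRingHom ℂ`).

`crv_le`: induction on `T`: for `2 ≤ B`, `z ≤ B`:
`crv n Δ T y z i ≤ (∑ k < 2 ^ T, y k) * B ^ (i * ∏ t < T, (Δ t + 1))`. Step: `z ^ Δ ≤ B ^ Δ ≤ B ^ (Δ + 1)` and
`z ^ Δ + z ≤ B ^ Δ + B ≤ 2 * B ^ Δ ≤ B ^ (Δ + 1)` (`Δ ≥ 1`), apply the induction hypothesis with
`B ^ (Δ T + 1)` in place of `B` to both halves (`Finset.prod_range_succ`). Finally `i ≤ n` and
`∑ k, y k ≤ ∏ k, (y k + 1) = nrm T y`.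
-/

namespace Pool.Agent.Helper7.PD

open MvPolynomial

private theorem np_degree {n : ℕ} (Δ : ℕ → ℕ) (T : ℕ) : (∀ t < T, 1 ≤ Δ t) →
    ∀ (y : ℕ → ℕ) (q : Polynomial ℂ) (i : Fin n),
    (crv n Δ T y q i).natDegree ≤ n * (∏ t ∈ Finset.range T, Δ t) * q.natDegree := by
  induction T with
  | zero =>
    intro _ y q i
    rw [crv_zero, Finset.prod_range_zero, mul_one]
    refine Polynomial.natDegree_mul_le.trans ?_
    rw [Polynomial.natDegree_natCast, zero_add]
    refine Polynomial.natDegree_pow_le.trans ?_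
    exact Nat.mul_le_mul_right _ i.isLt.le
  | succ T ih =>
    intro hΔ y q i
    have hT : 1 ≤ Δ T := hΔ T (Nat.lt_succ_self T)
    have ih' := ih fun t ht => hΔ t (ht.trans (Nat.lt_succ_self T))
    have h1 : (q ^ Δ T).natDegree ≤ Δ T * q.natDegree := Polynomial.natDegree_pow_le
    have h2 : (q ^ Δ T + q).natDegree ≤ Δ T * q.natDegree := by
      refine (Polynomial.natDegree_add_le _ _).trans (max_le h1 ?_)
      exact Nat.le_mul_of_pos_left _ hT
    rw [crv_succ, Finset.prod_range_succ]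
    have h3 : n * ((∏ t ∈ Finset.range T, Δ t) * Δ T) * q.natDegree =
        n * (∏ t ∈ Finset.range T, Δ t) * (Δ T * q.natDegree) := by ring
    rw [h3]
    refine (Polynomial.natDegree_add_le _ _).trans (max_le ?_ ?_)
    · exact (ih' _ _ _).trans (Nat.mul_le_mul_left _ h1)
    · exact (ih' _ _ _).trans (Nat.mul_le_mul_left _ h2)

private theorem np_sum (y : ℕ → ℕ) (N : ℕ) :
    ∑ k ∈ Finset.range N, y k ≤ ∏ k ∈ Finset.range N, (y k + 1) := by
  induction N with
  | zero => simp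
  | succ N ih =>
    rw [Finset.sum_range_succ, Finset.prod_range_succ]
    have h1 : 1 ≤ ∏ k ∈ Finset.range N, (y k + 1) := Finset.prod_pos fun _ _ => Nat.succ_pos _
    nlinarith [Nat.mul_le_mul_right (y N) h1]

private theorem np_crv {n : ℕ} (Δ : ℕ → ℕ) (T : ℕ) : (∀ t < T, 1 ≤ Δ t) →
    ∀ (y : ℕ → ℕ) (B z : ℕ), 2 ≤ B → z ≤ B → ∀ i : Fin n,
    crv n Δ T y z i ≤ (∑ k ∈ Finset.range (2 ^ T), y k) *
      B ^ ((i : ℕ) * ∏ t ∈ Finset.range T, (Δ t + 1)) := by
  induction T with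
  | zero =>
    intro _ y B z hB hz i
    rw [crv_zero, Finset.prod_range_zero, mul_one, pow_zero, Finset.sum_range_one]
    exact Nat.mul_le_mul_left _ (Nat.pow_le_pow_left hz _)
  | succ T ih =>
    intro hΔ y B z hB hz i
    have hT : 1 ≤ Δ T := hΔ T (Nat.lt_succ_self T)
    have ih' := ih fun t ht => hΔ t (ht.trans (Nat.lt_succ_self T))
    have hB1 : B ≤ B ^ Δ T := Nat.le_self_pow (by omega) B
    have h1 : z ^ Δ T ≤ B ^ Δ T := Nat.pow_le_pow_left hz _
    have h2 : 2 * B ^ Δ T ≤ B ^ (Δ T + 1) := by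
      rw [pow_succ, mul_comm]
      exact Nat.mul_le_mul_left _ hB
    have h3 := ih' y (B ^ (Δ T + 1)) (z ^ Δ T) (by omega) (by omega) i
    have h4 := ih' (fun k => y (k + 2 ^ T)) (B ^ (Δ T + 1)) (z ^ Δ T + z) (by omega) (by omega) i
    have h5 : ∑ k ∈ Finset.range (2 ^ (T + 1)), y k =
        ∑ k ∈ Finset.range (2 ^ T), y k + ∑ k ∈ Finset.range (2 ^ T), y (k + 2 ^ T) := by
      rw [pow_succ, mul_two, Finset.sum_range_add]
      congr 1
      refine Finset.sum_congr rfl fun k _ => ?_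
      rw [add_comm]
    have h6 : B ^ ((i : ℕ) * ∏ t ∈ Finset.range (T + 1), (Δ t + 1)) =
        (B ^ (Δ T + 1)) ^ ((i : ℕ) * ∏ t ∈ Finset.range T, (Δ t + 1)) := by
      rw [← pow_mul, Finset.prod_range_succ]
      congr 1
      ring
    rw [crv_succ, h5, h6, add_mul]
    exact add_le_add h3 h4

theorem nat_point {n d T : ℕ} {f : MvPolynomial (Fin n) ℂ} (hd : f.totalDegree ≤ d) (Δ : ℕ → ℕ)
    (hΔ : ∀ t < T, 1 ≤ Δ t) (y : ℕ → ℕ) (h : ∃ z : ℂ, eval (crv n Δ T y z) f ≠ 0) :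
    ∃ u : ℕ, u ≤ d * n * ∏ t ∈ Finset.range T, Δ t ∧
      eval (fun i => ((crv n Δ T y u i : ℕ) : ℂ)) f ≠ 0 := by
  set w : Fin n → Polynomial ℂ := crv n Δ T y (Polynomial.X : Polynomial ℂ) with hw
  set g : Polynomial ℂ := aeval w f with hg
  have hev : ∀ z : ℂ, g.eval z = eval (crv n Δ T y z) f := by
    intro z
    have h1 : (fun i => Polynomial.aeval z (w i)) = crv n Δ T y z := by
      funext i
      rw [Polynomial.coe_aeval_eq_eval, ← Polynomial.coe_evalRingHom, hw, crv_map,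
        Polynomial.coe_evalRingHom, Polynomial.eval_X]
    have h2 : (Polynomial.aeval z) (aeval w f) = aeval (fun i => Polynomial.aeval z (w i)) f := by
      rw [← AlgHom.comp_apply, comp_aeval]
    rw [h1, Polynomial.coe_aeval_eq_eval, aeval_eq_eval] at h2
    exact h2
  have hdeg : g.natDegree ≤ d * (n * ∏ t ∈ Finset.range T, Δ t) := by
    refine aeval_natDegree_le f hd w fun i => ?_
    have h1 := np_degree (n := n) Δ T hΔ y Polynomial.X i
    rwa [Polynomial.natDegree_X, mul_one] at h1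
  have hg0 : g ≠ 0 := by
    obtain ⟨z, hz⟩ := h
    intro h0
    apply hz
    rw [← hev z, h0, Polynomial.eval_zero]
  by_contra hcon
  push Not at hcon
  apply hg0
  refine Polynomial.eq_zero_of_natDegree_lt_card_of_eval_eq_zero' g
    ((Finset.range (d * n * (∏ t ∈ Finset.range T, Δ t) + 1)).image (fun u : ℕ => (u : ℂ))) ?_ ?_
  · intro x hx
    rw [Finset.mem_image] at hx
    obtain ⟨u, hu, rfl⟩ := hx
    rw [Finset.mem_range] at hu
    have h1 := hcon u (by omega)
    rw [hev]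
    have h2 : crv n Δ T y (u : ℂ) = fun i => ((crv n Δ T y u i : ℕ) : ℂ) := by
      funext i
      exact (crv_map n Δ (Nat.castRingHom ℂ) T y u i).symm
    rw [h2]
    exact h1
  · rw [Finset.card_image_of_injective _ Nat.cast_injective, Finset.card_range]
    rw [← mul_assoc] at hdeg
    omega

theorem crv_le {n T : ℕ} (Δ : ℕ → ℕ) (hΔ : ∀ t < T, 1 ≤ Δ t) (y : ℕ → ℕ) {B z : ℕ} (hB : 2 ≤ B)
    (hz : z ≤ B) (i : Fin n) :
    crv n Δ T y z i ≤ nrm T y * B ^ (n * ∏ t ∈ Finset.range T, (Δ t + 1)) := by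
  refine (np_crv Δ T hΔ y B z hB hz i).trans ?_
  refine Nat.mul_le_mul (np_sum y _) ?_
  exact Nat.pow_le_pow_right (by omega) (Nat.mul_le_mul_right _ i.isLt.le)

end Pool.Agent.Helper7.PD
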