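import Mathlib

/-!
# PD-9: the schedule (numerics)

For `L = Nat.clog 2 r`, `T = Nat.clog 2 (2 * L)`, `e j = 2 ^ (j / 2 - 1)` (natural subtraction),
`sDel r t = 2 ^ (L / e (T - 1 - t) + 1)`, `sP t = e (T - 1 - t) - 1` and `sBet` the capacities.

Facts, for `j = T - 1 - t`:
* `2 ≤ sDel`: clear. `r < (sDel + 1) ^ (sP + 1)`: `(L / e + 1) * e ≥ L + 1 > L` (`Nat.lt_div_mul_add` or
  `Nat.div_add_mod`), so `sDel ^ e ≥ 2 ^ (L + 1) > r` (`Nat.le_pow_clog`).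
* capacities: `bet 0 = 1`, `bet (j + 1) = 2 * (bet j - (e j - 1))`; values `1, 2, 4, 8, 16, 30, 58, 110,
  214, ...`. Closed forms for `k ≥ 1`: `4 * bet (2 k) + 8 = 3 * 4 ^ k + 6 * 2 ^ k`,
  `bet (2 k + 1) * 2 + 4 = 3 * 4 ^ k + 4 * 2 ^ k` (induction on `k`; `e (2 k) = e (2 k + 1) = 2 ^ (k - 1)`). So
  `3 * 2 ^ j ≤ 4 * bet j` and `e j - 1 ≤ bet j` for all `j` (small cases by hand), hence
  `bet (j + 1) + 2 * (e j - 1) = 2 * bet j`.
  `Nat.log 2 r ≤ L ≤ bet T`: if `L ≥ 1` then `2 ^ T ≥ 2 L` (`Nat.le_pow_clog`), `bet T ≥ 3/4 * 2 ^ T ≥ L`.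
* `∏ sDel = 2 ^ (∑ (L / e j + 1)) ≤ 2 ^ (6 L + T)`: `∑ j < T, L / 2 ^ (j / 2 - 1) ≤ 6 L` (`j = 0, 1, 2, 3`
  give `4 L`, and the pairs `j = 2 k, 2 k + 1`, `k ≥ 2`, give `2 * (L / 2 ^ (k - 1))`, sum `≤ 2 L`; e.g.
  induction on `T`: `∑ j < T, L / e j + 2 * (something like L / e T) * 2 ≤ ...`, or over the
  rationals: `∑ j < T, 1 / e j ≤ 6`).
* `2 ^ T ≤ 4 r` for `r ≥ 1`: for `L = 0` (`r = 1`) `T = 0`; for `L ≥ 1`, `2 ^ T < 4 L`
  (`Nat.pow_pred_clog_lt_self`), and `L ≤ r`. `2 ^ L ≤ 2 r` (`r ≥ 1`).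
  So `∏ sDel ≤ (2 r) ^ 6 * 4 r = 2 ^ 8 * r ^ 7`.
* `2 ^ (2 ^ T) ≤ 2 ^ (4 L) * 2 ≤ ...`: for `L ≥ 1`: `2 ^ (2 ^ T) ≤ 2 ^ (4 L) ≤ (2 r) ^ 4 = 16 r ^ 4`; for
  `L = 0`: `2 ^ 1 = 2 ≤ 16`.
* `∏ (sDel + 1) ≤ ∏ 2 * sDel = 2 ^ T * ∏ sDel ≤ 4 r * 2 ^ 8 * r ^ 7 = 2 ^ 10 * r ^ 8`.
-/

namespace Pool.Agent.Helper7.PD

/-- Number of levels. -/
def sT (r : ℕ) : ℕ := Nat.clog 2 (2 * Nat.clog 2 r)

/-- The degrees of the ties. -/
def sDel (r t : ℕ) : ℕ := 2 ^ (Nat.clog 2 r / 2 ^ ((sT r - 1 - t) / 2 - 1) + 1)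

/-- the exponents -/
private def ex (j : ℕ) : ℕ := 2 ^ (j / 2 - 1)

private lemma ex_pos (j : ℕ) : 0 < ex j := by
  unfold ex
  positivity

private lemma ex_even (k : ℕ) : ex (2 * (k + 1)) = 2 ^ k := by
  unfold ex
  congr 1
  omega

private lemma ex_odd (k : ℕ) : ex (2 * (k + 1) + 1) = 2 ^ k := by
  unfold ex
  congr 1
  omega

/-- the capacities -/
private def bet : ℕ → ℕ
  | 0 => 1
  | j + 1 => 2 * (bet j - (ex j - 1))

private lemma bet_succ (j : ℕ) : bet (j + 1) = 2 * (bet j - (ex j - 1)) := rfl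

private lemma bet_closed (k : ℕ) :
    4 * bet (2 * (k + 1)) + 8 = 3 * 4 ^ (k + 1) + 6 * 2 ^ (k + 1) ∧
      bet (2 * (k + 1) + 1) * 2 + 4 = 3 * 4 ^ (k + 1) + 4 * 2 ^ (k + 1) := by
  induction k with
  | zero => decide
  | succ k ih =>
    obtain ⟨_, h2⟩ := ih
    have e1 : bet (2 * (k + 1 + 1)) = 2 * (bet (2 * (k + 1) + 1) - (2 ^ k - 1)) := by
      have : 2 * (k + 1 + 1) = (2 * (k + 1) + 1) + 1 := by ring
      rw [this, bet_succ, ex_odd]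
    have e2 : bet (2 * (k + 1 + 1) + 1) = 2 * (bet (2 * (k + 1 + 1)) - (2 ^ (k + 1) - 1)) := by
      rw [bet_succ, ex_even]
    have p1 : 0 < 2 ^ k := by positivity
    have p2 : (4 : ℕ) ^ k = 2 ^ k * 2 ^ k := by
      rw [← mul_pow]
      norm_num
    have p3 : 2 ^ k ≤ 4 ^ k := by
      rw [p2]
      exact Nat.le_mul_of_pos_left _ p1
    have q1 : (4 : ℕ) ^ (k + 1) = 4 * 4 ^ k := by ring
    have q2 : (4 : ℕ) ^ (k + 1 + 1) = 16 * 4 ^ k := by ring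
    have q3 : (2 : ℕ) ^ (k + 1) = 2 * 2 ^ k := by ring
    have q4 : (2 : ℕ) ^ (k + 1 + 1) = 4 * 2 ^ k := by ring
    rw [q1, q3] at h2
    rw [q3] at e2
    rw [e2, q2, q4]
    constructor <;> omega

private lemma bet_big (j : ℕ) : 3 * 2 ^ j ≤ 4 * bet j ∧ ex j - 1 ≤ bet j := by
  rcases Nat.even_or_odd' j with ⟨m, rfl | rfl⟩
  · rcases m with _ | k
    · decide
    · obtain ⟨h1, _⟩ := bet_closed k
      have q0 : (2 : ℕ) ^ (2 * (k + 1)) = 4 ^ (k + 1) := by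
        rw [pow_mul]
        norm_num
      have q1 : (4 : ℕ) ^ (k + 1) = 4 * 4 ^ k := by ring
      have q3 : (2 : ℕ) ^ (k + 1) = 2 * 2 ^ k := by ring
      have p1 : 0 < 2 ^ k := by positivity
      rw [q0, ex_even]
      rw [q1, q3] at h1
      rw [q1]
      constructor <;> omega
  · rcases m with _ | k
    · decide
    · obtain ⟨_, h1⟩ := bet_closed k
      have q0 : (2 : ℕ) ^ (2 * (k + 1) + 1) = 2 * 4 ^ (k + 1) := by
        rw [pow_succ, pow_mul]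
        norm_num
        ring
      have q1 : (4 : ℕ) ^ (k + 1) = 4 * 4 ^ k := by ring
      have q3 : (2 : ℕ) ^ (k + 1) = 2 * 2 ^ k := by ring
      have p1 : 0 < 2 ^ k := by positivity
      rw [q0, ex_odd]
      rw [q1, q3] at h1
      rw [q1]
      constructor <;> omega

private lemma two_pow_clog (r : ℕ) (hr : 1 ≤ r) : 2 ^ Nat.clog 2 r ≤ 2 * r := by
  rcases Nat.lt_or_ge 1 r with h | h
  · have h1 := Nat.pow_pred_clog_lt_self (b := 2) (by norm_num) h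
    have h2 : 0 < Nat.clog 2 r := Nat.clog_pos (by norm_num) h
    have h3 : 2 ^ Nat.clog 2 r = 2 * 2 ^ (Nat.clog 2 r).pred := by
      rw [← pow_succ']
      exact congrArg _ (Nat.succ_pred_eq_of_pos h2).symm
    rw [h3]
    omega
  · have : r = 1 := by omega
    subst this
    simp

private lemma clog_le (r : ℕ) (hr : 1 ≤ r) : Nat.clog 2 r ≤ r := by
  rcases Nat.lt_or_ge 1 r with h | h
  · have h1 := Nat.pow_pred_clog_lt_self (b := 2) (by norm_num) h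
    have h2 : (Nat.clog 2 r).pred < 2 ^ (Nat.clog 2 r).pred := Nat.lt_two_pow_self
    have h3 : (Nat.clog 2 r).pred = Nat.clog 2 r - 1 := rfl
    omega
  · have : r = 1 := by omega
    subst this
    simp

private lemma two_pow_T (r : ℕ) (h : 1 ≤ Nat.clog 2 r) : 2 ^ sT r < 4 * Nat.clog 2 r := by
  have h0 : 1 < 2 * Nat.clog 2 r := by omega
  have h1 := Nat.pow_pred_clog_lt_self (b := 2) (by norm_num) h0
  have h2 : 0 < sT r := Nat.clog_pos (by norm_num) h0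
  have h3 : 2 ^ sT r = 2 * 2 ^ (sT r).pred := by
    rw [← pow_succ']
    exact congrArg _ (Nat.succ_pred_eq_of_pos h2).symm
  have h4 : 2 ^ (sT r).pred < 2 * Nat.clog 2 r := h1
  omega

private lemma sT_zero (r : ℕ) (h : Nat.clog 2 r = 0) : sT r = 0 := by
  unfold sT
  rw [h]
  simp

private lemma two_pow_T_le (r : ℕ) (hr : 1 ≤ r) : 2 ^ sT r ≤ 4 * r := by
  rcases Nat.eq_zero_or_pos (Nat.clog 2 r) with h | h
  · rw [sT_zero r h]
    omega
  · have h1 := two_pow_T r h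
    have h2 := clog_le r hr
    omega

theorem schedule (r : ℕ) (hr : 1 ≤ r) : ∃ P β : ℕ → ℕ,
    (∀ t < sT r, r < (sDel r t + 1) ^ (P t + 1)) ∧
    (∀ t < sT r, β t + 2 * P t ≤ 2 * β (t + 1)) ∧ β (sT r) ≤ 1 ∧ Nat.log 2 r ≤ β 0 := by
  refine ⟨fun t => ex (sT r - 1 - t) - 1, fun t => bet (sT r - t), ?_, ?_, ?_, ?_⟩
  · intro t _
    have h1 : ex (sT r - 1 - t) - 1 + 1 = ex (sT r - 1 - t) :=
      Nat.sub_add_cancel (ex_pos _)
    have h2 : sDel r t = 2 ^ (Nat.clog 2 r / ex (sT r - 1 - t) + 1) := rfl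
    change r < (sDel r t + 1) ^ (ex (sT r - 1 - t) - 1 + 1)
    rw [h1]
    set e := ex (sT r - 1 - t) with he
    have he0 : 0 < e := ex_pos _
    have h3 : Nat.clog 2 r < (Nat.clog 2 r / e + 1) * e := by
      have := Nat.lt_mul_div_succ (Nat.clog 2 r) he0
      rw [mul_comm]
      exact this
    calc r ≤ 2 ^ Nat.clog 2 r := Nat.le_pow_clog (by norm_num) r
      _ < 2 ^ ((Nat.clog 2 r / e + 1) * e) := Nat.pow_lt_pow_right (by norm_num) h3
      _ = (sDel r t) ^ e := by rw [h2, pow_mul]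
      _ ≤ (sDel r t + 1) ^ e := Nat.pow_le_pow_left (by omega) e
  · intro t ht
    have h1 : sT r - t = (sT r - 1 - t) + 1 := by omega
    have h2 : sT r - (t + 1) = sT r - 1 - t := by omega
    change bet (sT r - t) + 2 * (ex (sT r - 1 - t) - 1) ≤ 2 * bet (sT r - (t + 1))
    rw [h1, h2, bet_succ]
    have := (bet_big (sT r - 1 - t)).2
    omega
  · change bet (sT r - sT r) ≤ 1
    rw [Nat.sub_self]
    exact le_rfl
  · change Nat.log 2 r ≤ bet (sT r - 0)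
    rw [Nat.sub_zero]
    have h0 : Nat.log 2 r ≤ Nat.clog 2 r := Nat.log_le_clog 2 r
    have h1 : 2 * Nat.clog 2 r ≤ 2 ^ sT r := Nat.le_pow_clog (by norm_num) _
    have h2 := (bet_big (sT r)).1
    omega

theorem two_le_sDel (r t : ℕ) : 2 ≤ sDel r t := by
  rw [sDel, pow_succ]
  have := Nat.one_le_two_pow (n := Nat.clog 2 r / 2 ^ ((sT r - 1 - t) / 2 - 1))
  omega

private lemma sum_aux (L k : ℕ) :
    ∑ j ∈ Finset.range (2 * k + 4), L / ex j + 2 * (L / 2 ^ k) ≤ 6 * L := by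
  induction k with
  | zero =>
    have h0 : ex 0 = 1 := by decide
    have h1 : ex 1 = 1 := by decide
    have h2 : ex 2 = 1 := by decide
    have h3 : ex 3 = 1 := by decide
    simp only [Nat.mul_zero, Nat.zero_add, Finset.sum_range_succ, Finset.sum_range_zero, h0, h1,
      h2, h3, Nat.div_one, pow_zero]
    omega
  | succ k ih =>
    have e0 : 2 * (k + 1) + 4 = (2 * k + 4) + 1 + 1 := by ring
    have e1 : ex (2 * k + 4) = 2 ^ (k + 1) := by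
      unfold ex
      congr 1
      omega
    have e2 : ex (2 * k + 4 + 1) = 2 ^ (k + 1) := by
      unfold ex
      congr 1
      omega
    rw [e0, Finset.sum_range_succ, Finset.sum_range_succ, e1, e2]
    have h3 : 2 * (L / 2 ^ (k + 1)) ≤ L / 2 ^ k := by
      rw [pow_succ, ← Nat.div_div_eq_div_mul]
      exact Nat.mul_div_le _ _
    omega

private lemma sum_le (L T : ℕ) : ∑ j ∈ Finset.range T, L / ex j ≤ 6 * L := by
  have h1 := sum_aux L T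
  have h2 : ∑ j ∈ Finset.range T, L / ex j ≤ ∑ j ∈ Finset.range (2 * T + 4), L / ex j := by
    refine Finset.sum_le_sum_of_subset fun x hx => ?_
    rw [Finset.mem_range] at hx ⊢
    omega
  omega

theorem prod_sDel (r : ℕ) (hr : 1 ≤ r) :
    ∏ t ∈ Finset.range (sT r), sDel r t ≤ 2 ^ 8 * r ^ 7 := by
  have h1 : ∏ t ∈ Finset.range (sT r), sDel r t =
      2 ^ (∑ j ∈ Finset.range (sT r), (Nat.clog 2 r / ex j + 1)) := by
    rw [← Finset.prod_pow_eq_pow_sum,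
      ← Finset.prod_range_reflect (fun j => 2 ^ (Nat.clog 2 r / ex j + 1)) (sT r)]
    rfl
  rw [h1, Finset.sum_add_distrib, Finset.sum_const, Finset.card_range, smul_eq_mul, mul_one,
    pow_add]
  have h2 : 2 ^ (∑ j ∈ Finset.range (sT r), Nat.clog 2 r / ex j) ≤ (2 * r) ^ 6 := by
    calc 2 ^ (∑ j ∈ Finset.range (sT r), Nat.clog 2 r / ex j) ≤ 2 ^ (6 * Nat.clog 2 r) :=
          Nat.pow_le_pow_right (by norm_num) (sum_le _ _)
      _ = (2 ^ Nat.clog 2 r) ^ 6 := by rw [mul_comm, pow_mul]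
      _ ≤ (2 * r) ^ 6 := Nat.pow_le_pow_left (two_pow_clog r hr) 6
  calc _ ≤ (2 * r) ^ 6 * (4 * r) := Nat.mul_le_mul h2 (two_pow_T_le r hr)
    _ = 2 ^ 8 * r ^ 7 := by ring

theorem prod_sDel_succ (r : ℕ) (hr : 1 ≤ r) :
    ∏ t ∈ Finset.range (sT r), (sDel r t + 1) ≤ 2 ^ 10 * r ^ 8 := by
  have h1 : ∏ t ∈ Finset.range (sT r), (sDel r t + 1) ≤
      ∏ t ∈ Finset.range (sT r), (2 * sDel r t) := by
    refine Finset.prod_le_prod' fun t _ => ?_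
    have := two_le_sDel r t
    omega
  refine h1.trans ?_
  rw [Finset.prod_mul_distrib, Finset.prod_const, Finset.card_range]
  calc _ ≤ (4 * r) * (2 ^ 8 * r ^ 7) := Nat.mul_le_mul (two_pow_T_le r hr) (prod_sDel r hr)
    _ = 2 ^ 10 * r ^ 8 := by ring

theorem two_pow_sT (r : ℕ) (hr : 1 ≤ r) : 2 ^ (2 ^ sT r) ≤ 2 ^ 4 * r ^ 4 := by
  rcases Nat.eq_zero_or_pos (Nat.clog 2 r) with h | h
  · rw [sT_zero r h]
    have : 1 ≤ r ^ 4 := Nat.one_le_pow _ _ hr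
    omega
  · have h1 := two_pow_T r h
    calc 2 ^ (2 ^ sT r) ≤ 2 ^ (4 * Nat.clog 2 r) := Nat.pow_le_pow_right (by norm_num) h1.le
      _ = (2 ^ Nat.clog 2 r) ^ 4 := by rw [mul_comm, pow_mul]
      _ ≤ (2 * r) ^ 4 := Nat.pow_le_pow_left (two_pow_clog r hr) 4
      _ = 2 ^ 4 * r ^ 4 := by ring

end Pool.Agent.Helper7.PD
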