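import Mathlib
import Pool.Agent.Helper7.PD.Iterate
import Pool.Agent.Helper7.PD.NatPoint
import Pool.Agent.Helper7.PD.Count
import Pool.Agent.Helper7.PD.Schedule
import Pool.Agent.Helper7.PD.Taylor
import Pool.Agent.Helper7.PD.Closure

/-!
# PD-11: assembly
-/

namespace Pool.Agent.Helper7.PD

open MvPolynomial

/-- The trees: leaf weights `y : Fin (2 ^ T) → ℕ` with values `< r + 1` and `∏ (y k + 1) ≤ r`. -/
def trees (T r : ℕ) : Finset (Fin (2 ^ T) → ℕ) :=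
  (Fintype.piFinset fun _ => Finset.range (r + 1)).filter fun y => ∏ k, (y k + 1) ≤ r

/-- Extension by zero. -/
def ext {m : ℕ} (y : Fin m → ℕ) (k : ℕ) : ℕ := if h : k < m then y ⟨k, h⟩ else 0

/-- The hitting set with general parameters. -/
def hset (n T r U : ℕ) (Δ : ℕ → ℕ) : Finset (Fin n → ℕ) :=
  (trees T r ×ˢ Finset.range (U + 1)).image fun c => crv n Δ T (ext c.1) c.2

theorem nrm_ext {T : ℕ} (y : Fin (2 ^ T) → ℕ) : nrm T (ext y) = ∏ k, (y k + 1) := by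
  rw [nrm, Finset.prod_range]
  refine Finset.prod_congr rfl fun k _ => ?_
  rw [ext, dif_pos k.2]

theorem hset_card (n T r U : ℕ) (Δ : ℕ → ℕ) :
    (hset n T r U Δ).card ≤ r ^ 2 * 2 ^ (2 ^ T) * (U + 1) := by
  rw [hset]
  refine Finset.card_image_le.trans ?_
  rw [Finset.card_product, Finset.card_range]
  exact Nat.mul_le_mul_right _ (card_trees _ _ _)

theorem hset_bound {n T r U : ℕ} {Δ : ℕ → ℕ} (hΔ : ∀ t < T, 1 ≤ Δ t) {a : Fin n → ℕ}
    (ha : a ∈ hset n T r U Δ) (i : Fin n) :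
    a i ≤ r * (U + 2) ^ (n * ∏ t ∈ Finset.range T, (Δ t + 1)) := by
  obtain ⟨⟨y, u⟩, h, rfl⟩ := Finset.mem_image.1 ha
  obtain ⟨hy, hu⟩ := Finset.mem_product.1 h
  have h1 : ∏ k, (y k + 1) ≤ r := (Finset.mem_filter.1 hy).2
  have h2 : u < U + 1 := Finset.mem_range.1 hu
  refine (crv_le (z := u) Δ hΔ (ext y) (B := U + 2) (by omega) (by omega) i).trans ?_
  rw [nrm_ext]
  exact Nat.mul_le_mul_right _ h1

theorem hset_hits {n d r T U : ℕ} {Δ P β : ℕ → ℕ} (hΔ : ∀ t < T, 2 ≤ Δ t)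
    (hP : ∀ t < T, r < (Δ t + 1) ^ (P t + 1)) (hβ : ∀ t < T, β t + 2 * P t ≤ 2 * β (t + 1))
    (hT : β T ≤ 1) (hL : Nat.log 2 r ≤ β 0) (hU : d * n * ∏ t ∈ Finset.range T, Δ t ≤ U)
    {f : MvPolynomial (Fin n) ℂ} (hd : f.totalDegree ≤ d) (hf : RankLe r f) (h0 : f ≠ 0) :
    ∃ a ∈ hset n T r U Δ, eval (fun i => ((a i : ℕ) : ℂ)) f ≠ 0 := by
  obtain ⟨y, hy0, hy1, hz⟩ := iterate hf h0 T Δ P β hΔ hP hβ hT hL
  obtain ⟨u, hu, hne⟩ := nat_point hd Δ (fun t ht => le_trans (by norm_num) (hΔ t ht)) y hz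
  have hext : ext (fun k : Fin (2 ^ T) => y k) = y := by
    funext k
    rw [ext]
    split_ifs with h
    · rfl
    · exact (hy0 k (not_lt.1 h)).symm
  refine ⟨crv n Δ T y u, ?_, hne⟩
  rw [hset, Finset.mem_image]
  refine ⟨(fun k => y k, u), ?_, ?_⟩
  · rw [Finset.mem_product]
    refine ⟨?_, Finset.mem_range.2 (Nat.lt_succ_of_le (hu.trans hU))⟩
    rw [trees, Finset.mem_filter]
    have h1 : ∏ k : Fin (2 ^ T), (y k + 1) ≤ r := by
      rw [← nrm_ext, hext]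
      exact hy1
    refine ⟨?_, h1⟩
    rw [Fintype.mem_piFinset]
    intro k
    rw [Finset.mem_range]
    have h2 : y k + 1 ≤ ∏ k : Fin (2 ^ T), (y k + 1) :=
      Finset.single_le_prod' (f := fun k : Fin (2 ^ T) => y k + 1) (fun j _ => by
        change 1 ≤ _
        omega) (Finset.mem_univ k)
    change y k < r + 1
    omega
  · change crv n Δ T (ext fun k : Fin (2 ^ T) => y k) u = _
    rw [hext]

/-- The explicit hitting set. -/
def hittingSet (n d r : ℕ) : Finset (Fin n → ℕ) :=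
  hset n (sT r) r (2 ^ 8 * (d * n) * r ^ 7) (sDel r)

theorem hittingSet_card (n d r : ℕ) :
    (hittingSet n d r).card ≤ 2 ^ 12 * (d * n + 1) * r ^ 13 := by
  rcases Nat.eq_zero_or_pos r with rfl | hr
  · refine (hset_card _ _ _ _ _).trans ?_
    simp
  · refine (hset_card _ _ _ _ _).trans ?_
    calc r ^ 2 * 2 ^ (2 ^ sT r) * (2 ^ 8 * (d * n) * r ^ 7 + 1)
        ≤ r ^ 2 * (2 ^ 4 * r ^ 4) * (2 ^ 8 * (d * n) * r ^ 7 + 2 ^ 8 * r ^ 7) := by
          refine Nat.mul_le_mul (Nat.mul_le_mul_left _ (two_pow_sT r hr)) ?_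
          have h : 1 ≤ r ^ 7 := Nat.one_le_pow _ _ hr
          nlinarith
      _ = 2 ^ 12 * (d * n + 1) * r ^ 13 := by ring

theorem hittingSet_hits {n d r : ℕ} {f : MvPolynomial (Fin n) ℂ} (hd : f.totalDegree ≤ d)
    (hf : RankLe r f) (h0 : f ≠ 0) :
    ∃ a ∈ hittingSet n d r, eval (fun i => ((a i : ℕ) : ℂ)) f ≠ 0 := by
  rcases Nat.eq_zero_or_pos r with rfl | hr
  · exfalso
    apply h0
    obtain ⟨A, B, h⟩ := hf
    apply MvPolynomial.funext
    intro x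
    have h1 := h x 0
    rw [add_zero, Finset.univ_eq_empty, Finset.sum_empty] at h1
    rw [h1, map_zero]
  · obtain ⟨P, β, h1, h2, h3, h4⟩ := schedule r hr
    refine hset_hits (fun t _ => two_le_sDel r t) h1 h2 h3 h4 ?_ hd hf h0
    calc d * n * ∏ t ∈ Finset.range (sT r), sDel r t ≤ d * n * (2 ^ 8 * r ^ 7) :=
          Nat.mul_le_mul_left _ (prod_sDel r hr)
      _ = 2 ^ 8 * (d * n) * r ^ 7 := by ring

theorem hittingSet_bound {n d r : ℕ} {a : Fin n → ℕ} (ha : a ∈ hittingSet n d r) (i : Fin n) :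
    a i ≤ r * (2 ^ 8 * (d * n) * r ^ 7 + 2) ^ (2 ^ 10 * n * r ^ 8) := by
  rcases Nat.eq_zero_or_pos r with rfl | hr
  · obtain ⟨⟨y, u⟩, h, rfl⟩ := Finset.mem_image.1 ha
    obtain ⟨hy, hu⟩ := Finset.mem_product.1 h
    have h1 : ∏ k, (y k + 1) ≤ 0 := (Finset.mem_filter.1 hy).2
    have h2 : 0 < ∏ k, (y k + 1) := Finset.prod_pos fun _ _ => Nat.succ_pos _
    omega
  · refine (hset_bound (fun t _ => le_trans (by norm_num) (two_le_sDel r t)) ha i).trans ?_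
    refine Nat.mul_le_mul_left _ (Nat.pow_le_pow_right (by omega) ?_)
    calc n * ∏ t ∈ Finset.range (sT r), (sDel r t + 1) ≤ n * (2 ^ 10 * r ^ 8) :=
          Nat.mul_le_mul_left _ (prod_sDel_succ r hr)
      _ = 2 ^ 10 * n * r ^ 8 := by ring

end Pool.Agent.Helper7.PD
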