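import Mathlib
import Pool.Agent.Helper7.PD.Final

/-!
# PD-12: the final statement
-/

namespace Pool.Agent.Helper7.PD

open MvPolynomial

theorem final (n d r : ℕ) :
    (hittingSet n d r).card ≤ 2 ^ 12 * (d * n + 1) * r ^ 13 ∧
    (∀ a ∈ hittingSet n d r, ∀ i,
      a i ≤ r * (2 ^ 8 * (d * n) * r ^ 7 + 2) ^ (2 ^ 10 * n * r ^ 8)) ∧
    (∀ f : MvPolynomial (Fin n) ℂ, f.totalDegree ≤ d → Module.finrank ℂ (partials f) ≤ r →
      f ≠ 0 → ∃ a ∈ hittingSet n d r, eval (fun i => ((a i : ℕ) : ℂ)) f ≠ 0) ∧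
    (∀ s κ : ℕ, s * (d + 1) ^ κ ≤ r → ∀ (l : Fin s → Fin κ → MvPolynomial (Fin n) ℂ)
      (F : Fin s → MvPolynomial (Fin κ) ℂ), (∀ i j, (l i j).totalDegree ≤ 1) →
      (∀ i, (F i).totalDegree ≤ d) → ∑ i, aeval (l i) (F i) ≠ 0 →
      ∃ a ∈ hittingSet n d r, eval (fun i => ((a i : ℕ) : ℂ)) (∑ i, aeval (l i) (F i)) ≠ 0) := by
  refine ⟨hittingSet_card n d r, fun a ha i => hittingSet_bound ha i,
    fun f hd hf h0 => hittingSet_hits hd (rankLe_of_finrank hf) h0, ?_⟩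
  intro s κ hs l F hl hF h0
  refine hittingSet_hits ?_ ?_ h0
  · refine totalDegree_finsetSum_le fun i _ => ?_
    exact (totalDegree_aeval_le (l i) (hl i) (F i)).trans (hF i)
  · refine RankLe.mono (RankLe.sum (fun i => aeval (l i) (F i)) (fun _ => (d + 1) ^ κ)
      fun i => RankLe.few_affine (l i) (hl i) (F i) (hF i)) ?_
    rw [Finset.sum_const, Finset.card_univ, Fintype.card_fin, smul_eq_mul]
    exact hs

end Pool.Agent.Helper7.PD
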